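import Mathlib
import Pool.Agent.AVF.Weil
import Pool.Agent.AVG.RxH

/-!
# The Tate conjecture for abelian varieties of dimension at most five, and for products of abelian varieties of
# dimensions one, two, three and five, over finite fields

The theorem of this file is the arithmetic and combinatorial part of a proof of the following
statement; this comment contains the geometric part, sections 3 and 4 being new.

THEOREM. Let `k` be a finite field of characteristic `p`, `A` an abelian variety over `k` and `A_1, …, A_r` the pairwise non
isogenous simple factors of `A` over the algebraic closure of `k`; let `E_i` be the centre of the
endomorphism algebra of `A_i` and `E_i⁺` its maximal totally real subfield. Suppose that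
(1) `∑ dim A_i ≤ 5`, or
(2) the `A_i` which are not supersingular can be divided into groups, each of which satisfies one of the conditions (a) - (e), so that the
    spans of the weights (section 1) of the groups are linearly independent, except that the spans of groups with (d) or (e) may have in
    common the multiples of `κ/2`, the weight of `y² = x³ + 1` (for instance, so that the composites of the Galois closures of the
    `E_i` of the groups are linearly disjoint, or, if all groups are as in (d) or (e), become linearly disjoint over `ℚ(√-3)`):
    (a) the Galois closures of those `E_i` of the group whose degree is at least six are different from each other, and for every `A_i` of the group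
        (i) `dim A_i ≤ 3`; or
        (ii) `dim A_i = 5`, and `A_i` has not the signature `(1, 4)`, that is, there is no imaginary quadratic field `K` in `E_i` in
             which `p` splits, such that the part of the `p`-divisible group of `A_i` over a place of `K` has dimension one; or
        (iii) `E_i` contains no imaginary quadratic field, and the degree of `E_i` is `2 ℓ`, `ℓ` an odd prime number, or it is at least six,
             `E_i⁺` has no proper subfields except `ℚ` and the Tate classes on the powers of `A_i` are generated by divisors; or
        (iv) the degree of `E_i` is `8`, the Galois group of `E_i⁺` is `A_4` or `S_4`, and `dim A_i = 4` or `E_i` contains no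
             imaginary quadratic field;
    (b) `∑ dim A_i ≤ 4`, the sum over the group;
    (c) the Tate classes on the powers of the product of the `A_i` of the group are generated by divisors;
    (d) `dim A_i ≤ 3`, and the Galois closures of those `E_i` of the group whose degree is six are different from each other;
    (e) there is a totally real field `F` of degree at most six, mapped into itself by the decomposition group `D` (section 1), and the `A_i` are
        factors of reductions of simple abelian varieties with complex multiplication, whose reflex fields are contained in `F(√-3)`; for
        instance, `F` is a Galois extension of `ℚ`, `E_i` is contained in `F(√-3)` and the algebra `End⁰(A_i)` is commutative.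
Then `T^i(A^n)` holds for all `i` and `n`. More generally `T^i(U)` holds, for all `i`, for every smooth
variety `U` over `k` such that, after a finite extension of `k`, there is a proper, surjective,
generically finite morphism `U' → U`, `U'` open in a smooth projective variety `Y` whose motive
belongs to the thick tensor category generated by `h(A)`.

In particular the Tate conjecture holds for all abelian varieties of dimension at most five over
finite fields and for all their powers; for all products of abelian varieties whose simple factors have dimension at most
two or are threefolds with `√-3` in `End⁰`, and any number of other threefolds whose centres of degree six have Galois closures different from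
each other and from those of the first threefolds (section 10); for the products of abelian varieties of dimension at most two with
the powers of one abelian threefold, or of one simple abelian fivefold which is not of signature `(1, 4)`; for
products of any number of simple abelian varieties of dimensions `1`, `2`, `3`, `5` (not of signature `(1, 4)`) if the Galois closures of
the centres of degree at least six are different; for all abelian varieties whose Frobenius eigenvalues have powers in `F(√-3)`, `F` a totally real Galois
extension of `ℚ` of degree at most six, if the algebras `End⁰` of the simple factors which are not supersingular are commutative, for instance `F(√-3) = ℚ(ζ_21)` or `ℚ(ζ_36)`; for arbitrary products of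
curves of genus at most two and Picard curves `y³ = f_4(x)`, for `C^n`, `C` of genus at most five, for the moduli spaces of
stable vector bundles of coprime rank and degree on these curves, for Hilbert schemes of points of
abelian surfaces and of products of two such curves, generalised Kummer varieties, for arbitrary products of K3 surfaces with `ρ ≥ 18` and curves of genus at most two, for all powers of
K3 surfaces with `ρ = 16` and of most of those with `ρ = 12, 14` (section 9), for open
subvarieties of products of all these, and for isotrivial families (abelian varieties over finitely
generated fields of characteristic `p` which become constant over a finite extension).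

Known before. `A^n` if all Tate classes are generated by divisors: products of elliptic curves
(Spiess), dimension at most three except the case of a relation of four weights (Zarhin 1994, 2015), almost ordinary
`A` (Lenstra and Zarhin), `A` of K3 type (Zarhin), generic Frobenius tori; K3 surfaces: `X × X` (Ito, Ito and Koshikawa 2021), all powers of
ordinary ones (Zarhin). Milne (1999, 2001, 2022)
shows that the Hodge conjecture for all powers of a CM lift with a condition on the Lefschetz
groups implies the Tate conjecture for all powers of `A`. Markman (2025) proves that the Weil
classes are algebraic on all complex abelian fourfolds of Weil type, and on the sixfolds of Weil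
type with discriminant `-1`. For (e) over the complex
numbers see theorem (7.1) of `MumfordPowers`, a hand-in for the same problem. The last part of the theorem (`Gen` instead of `Gen2`) is the earlier hand-in
`AbelianFinite`, which used only these Weil classes and excluded two surfaces with the group `D_4`. Over the
complex numbers the Hodge conjecture for products of abelian surfaces is treated by Ramón Marí
(Collectanea Math. 2008); nothing is used from there.

`ℓ`-adic cohomology is for a prime number different from the characteristic `p`.

## 1. Weights

Let `L` be a CM field, Galois over `ℚ` with group `G`, which contains the eigenvalues `π` of the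
Frobenius of `A` on `H^1(A)` (`k` may be enlarged) and a square root of `-3`; `c` the complex conjugation, which is central
in `G`, `κ : G → {±1}` the character of `ℚ(√-3)`, `P` a prime of `L` above `p`, `D` its decomposition group, `q` the number of elements
of `k`. The eigenvalues are algebraic integers with `π · c π = q` (`IsWeil`). The weight of `π` is the
function `wt P q π`, `g ↦ v_P(g π) / v_P(q) - 1/2`, on `G`. Two eigenvalues have the same weight if and only if
their quotient is a root of unity, and the weight of `h π` is `tr h w`, `g ↦ w (g h)`.

Weights are the functions `w : G → ℚ` with `w (d g) = w g` for `d ∈ D`, `w (c g) = - w g`, `|w| ≤ 1/2`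
(`IsWeight`). By the theorem of Honda and Tate they correspond, up to the action of `G`, to the
isogeny classes of simple abelian varieties `A_w` over an algebraic closure of `k` with
Frobenius eigenvalues in `L` (after enlarging `k`): the centre of `End(A_w)` is the field `E_w = ℚ(π^N)`, `N` large,
its embeddings in `L` correspond to the elements of the orbit `G w`, and `H^1(A_w)` is the sum over `x ∈ G w` of
subspaces `H_x` of dimension `e(w)`, where `e(w)` is the least common denominator of the Hasse
invariants: `(w g + 1/2) · |D (g w)|`, `|D (g w)|` being the local degree. This is `idx D w`.
`2 dim A_w = e(w) |G w|` (`dim2 D w`). The weight `0` is the supersingular elliptic curve, `e(0) = 2`.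
`core w` is the Galois group of `L` over the Galois closure of `E_w`, and `NoQ c w` means that `E_w` contains no
imaginary quadratic field. `IsFactor D c w` means that `A_w` is of one of the kinds (i) - (iv): `Sig14 D c w` is the signature `(1, 4)`, since
the dimension of the part over the place of `K`, the field of `ε`, is `5/2` plus `e(w)` times the sum of the `x(1)`, `x` in the orbit of
`w` under `ker ε` (if `K` is not in `E_w` or `p` does not split in `K`, this sum is `0`); `Prim w` means that `E_w⁺`, whose embeddings are the
pairs `{x, -x}`, has no proper subfields except `ℚ`, and `TwoTr w` that its Galois group is 2-transitive; that there is no odd relation (`IsRel`) means that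
the Tate classes are generated by divisors. `IsCluster` is (a), (b) or (c) for a group, `IsShared` is (d) or (e), `HasReflex` is (e), `B` the Galois
group of `L` over `F(√-3)` (the reflex field of a type `f`, section 4, belongs to the group of all `b` with `f (b g) = f g`), and `HasParts` is (2).

The Tate classes on the powers of `A`, over finite extensions of `k`, are spanned by the spaces
`V(S) = ⨂_(w ∈ S) H_w`, `S` a multiset of weights of `A` with `|S| = 2 i`, such that the product of the
eigenvalues is `q^i` up to a root of unity. By the theorem below `S` belongs to `Gen2 D c κ`, and by sections
2, 3, 4 the elements of `V(S)` are algebraic.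

## 2. If `S` is in `Gen D c`, then the elements of `V(S)` are algebraic

`V(S)` is an irreducible module under the endomorphisms of the `A_w`, acting factor by factor, with coefficients
extended to an algebraic closure of `ℚ_ℓ`; so one algebraic class different from `0` in `V(S)` is
enough. `pair`: Tate's theorem for `A_w × A_w`. `add`: exterior products. `cancel`: contraction with an algebraic
class.

`split`: `ε : G → {±1}`, `ε(c) = -1`, defines an imaginary quadratic field `K` in `L`, in which `p`
splits, since `ε(D) = 1`. `χ = ε/2` is the weight of the ordinary elliptic curve `E_K`.
Let `O` be an orbit of `ker ε` in `S`. If `O = -O`, or if `-O` is in `S` too, we can remove pairs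
`w, -w` (the multiplicities of `O` and `-O` are divisible by `e(w)`), and we may assume that
this is not the case for any `O`. Then `K` is contained in
`E_w` for all `w` in `S`. Let `B` be the product of the `A_w^(m/e(w))`, one `w` for each orbit `O` of
`ker ε` in `S`, `m` the multiplicity. `K` acts on `B` so that the space `H_w^(m/e)`, `w ∈ S`, belong to the first
embedding of `K`. `dim B = |S| = n` and `V(S)` contains the component of a Weil class, a generator
of the determinant over `K` of `H^1(B)`. Take a CM algebra `E'` of degree `2 n` in `End(B)` which
contains `K` in its centre, and a CM lift `(B', E')` of an abelian variety isogenous to `B`, to characteristic zero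
(Honda, Tate). `K` acts on the tangent space of `B'` with the multiplicities `(a, n - a)`,
where `a` is the dimension of the part of the `p`-divisible group at the place of `K` under `P`,
that is, `a = ∑_(w ∈ S) (w(1) + 1/2) = n/2`. So `B'` is of Weil type. If `n = 2`, the Weil classes are
of degree two. If `n = 4` they are algebraic by Markman. If `n = 6`, nothing has been removed,
and one factor of `B'` is the elliptic curve `E_K`; its polarisation can be multiplied by any
positive rational number, so there is a polarisation with discriminant `-1`, and Markman's theorem
applies again. Specialise.

`nonsplit`: `K` as before, but `p` does not split in `K`. `T` is stable under `ker ε`, `T` and `-T` are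
disjoint, so `K` is in `E_w` for `w ∈ T`. The set of all `x` in `T ∪ -T` with `ψ x = 1/2` is a CM type
of the product of the fields `E_w`, and by the formula of Shimura and Taniyama the reduction at
`P` of the corresponding abelian variety `B'` is isogenous to the product `B` of the `A_w` (and `e(w) = 1`),
because the number of elements of the type in `D w` is `|D w| (w(1) + 1/2)`. The
multiplicities of `K` are `|T|/2 ± ∑_T ψ`. Add `j` elliptic curves with multiplication by `K`;
their types can be chosen so that `K` has the multiplicities `(n/2, n/2)`, `n = |T| + j`, because of
`|∑_T ψ| ≤ j/2`. Their reductions are supersingular, `w = 0`, and `H^1` of such a curve is irreducible under the endomorphisms.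
Markman's theorem for `n = 4` and, as in the first case, for `n = 6`, `j > 0`, shows that
`V(T + 0^j)` contains an algebraic class which is not zero. (There are fourfolds, with
slopes `1/4` and `3/4`, for which no CM lift is of Weil type for `K`; here `j = 2` is needed, and the two weights
`0` are removed by `cancel`.)

## 3. Theorem A

Let `K = ℚ(√-3)`, `τ` an embedding of `K` in `ℂ`, `E` the elliptic curve `y_0² = x_0³ + 1` with `K` acting so that
`χ = H^1(E)_τ` is of type `(1,0)`, `Ē` the same curve with the conjugate action, `χ̄ = H^1(Ē)_τ` of type `(0,1)`.
An abelian variety `Y` with an action of `K` has signature `(a, b)` if `H^1(Y)_τ` is of type `(1,0)^a (0,1)^b`.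

THEOREM A. Let `Y` be a complex abelian variety with an action of `K` of signature `(1, b)`, `b ≤ 8`. There is an
abelian variety `Z` with an action of `K` and an isomorphism of Hodge structures
`(Λ²_K H^1(Y) ⊗_K H^1(E))(1) = H^1(Z)` which, like its inverse, is given by algebraic cycles on `Y × Y × E × Z`.

(a) Let `f` be a binary form of degree `12` without multiple factors, `C : w^6 = f(t)` with the action of `μ_6`
on `w`, `U = H^1(C)_(ζ^-1)`, `ζ` a primitive sixth root of unity. The eigenspace of `ζ^-j` in `H^(1,0)` is spanned by the `P dt / w^j`, `P` of degree
`2 j - 2`, so `U` is of type `(1,0)^1 (0,1)^9`. Let `F` be the form of degree `12` on `ℙ² = Sym² ℙ¹` with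
`F(t + t') = f(t) f(t')`, the product of the equations of `12` tangents of a conic; no three of them meet. Let
`V : y² = x³ + F(s)` in `ℙ(1,1,1,4,6)`. The rational map `C × C × E → V`, `s = t + t'`, `x = (w w')² x_0`, `y = (w w')³ y_0`, is of degree
`72`; it is the quotient by the group `Γ = (μ_6 × μ_6) ⋊ S_2`, in which `(α, β)` multiplies `w` by `α`, `w'` by `β` and acts
on `E` by the inverse of `α β`. As `dx_0/y_0` is multiplied by `η^-1` if `(x_0, y_0)` is replaced by `(η² x_0, η³ y_0)`, the only components of `H^3(C × C × E)`
with invariants are `H^1(C)_χ' ⊗ H^1(C)_χ' ⊗ H^1(E)_χ'` for `χ' = ζ^±1`, and (the exchange of the factors acts on
`H^1 ⊗ H^1` with a sign) `H^3(C × C × E)^Γ = Λ² U ⊗ χ + (conjugate)`, of type `(2,1)^9 (1,2)^36 + (1,2)^9 (2,1)^36`.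

(b) `K_V = O(12 - 13) = O(-1)`. The singularities of `V` are the `66` points over the intersections of two of the
tangents, `y² = x³ + u v`, and one point `1/2 (1,1,1)` over `s = 0`; they are terminal. So `V` is a `ℚ`-Fano threefold and
rationally connected (it is enough here that it is uniruled, Miyaoka and Mori). Let `W` be a smooth projective resolution of
`(C × C × E)/Γ`, birational to `V`. Then `h(C × C × E)^Γ` is a direct factor of `h(W)` (`r_* r^* = id` for `r : W → (C × C × E)/Γ`, a
quotient with rational coefficients). By the decomposition of the diagonal (Bloch and Srinivas) there are a smooth
projective surface `S` and a morphism `i : S → W` such that `i_* : H^1(S)(-1) → H^3(W)` is onto, and then `i^*`, followed by the inverse of the Lefschetz operator of `S`, which is algebraic for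
surfaces, is injective from `H^3(W)` to `H^1(S)(-1)`. Write `i^*` for this map. `φ = i^* i_*` is an endomorphism of the abelian variety `Pic^0 S` up to isogeny, so
there is an endomorphism `ψ` with `φ ψ φ = φ`, and `i_* ψ i^* = id` on `H^3(W)`. Hence `H^3(W)`, and its direct factor in (a), is isomorphic
to `H^1(Z)(-1)` for an abelian variety `Z`, in both directions by algebraic cycles: theorem A holds for the part `J_f` of the Jacobian of `C` with
`H^1(J_f) = U + (conjugate)`.

(c) Let `Y` be of signature `(1, b)`, `b ≤ 8`, `Y' = Y × Ē^(9-b)`. The hermitian `K`-spaces `H_1(Y', ℚ)` and `H_1(J_f, ℚ)` have dimension `10` and
signature `(1, 9)`; their discriminants have the same sign, and since the polarisation of one factor `Ē` can be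
multiplied by any positive rational number we may assume that they are equal modulo norms; the spaces are isometric
(Landherr). The period map from the forms `f` to the ball of dimension `9` is a local isomorphism (Deligne and Mostow,
`μ = (1/6)^12`), so its image is open; the unitary group over `ℚ` is dense in the one over `ℝ`, which acts transitively
on the ball. So there is an `f` such that `Y'` and `J_f` are isogenous as abelian varieties with `K`-action. `Λ²_K H^1(Y) ⊗ χ` is a direct factor of
`Λ²_K H^1(Y') ⊗ χ`, cut out by algebraic projectors. QED

If `Y` is defined over `ℚ̄`, so are the cycles (spread out and specialise), and they can be specialised to any place where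
`Y`, `E` and `Z` have good reduction; the varieties `C`, `V`, `W` need not have good reduction.

## 4. `Cls` and reductions

A type is a function `f : G → {1/2, -1/2}` with `f (c g) = - f g`. Let `A_f` be the simple abelian variety over `ℚ̄` with complex
multiplication by the fixed field of `{h | tr h f = f}`, whose embeddings in `L` correspond to the elements of `G f`, `H^1(A_f) = ⨁_(x ∈ G f) H_x`, such that the
line `H_x` is of type `(1,0)` if `x(1) = 1/2` and `(0,1)` otherwise, for a fixed embedding of `L` in `ℂ`; the Hodge type of `H_x` for the embedding
`g` is given by `x(g)`. For a multiset `S` of types let `V(S) = ⨂_(f ∈ S) H_f`. If `S` is in `Cls c κ`, then `V(S)(|S|/2)` consists of algebraic classes: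
`pair`, `add`, `cancel` as before; `conj`: the algebraic classes are a rational subspace, so the set of all `S` for which `V(S)` is
algebraic is stable under `tr h`, `h ∈ G`, and `tr c f = - f`. `surf`: `K = ℚ(√-3)`. Let `Y` be the product over the orbits of `ker κ` in `T` of the abelian varieties `A_f`, if
`K` is contained in the field of `f`, and `A_f ⊗ O_K` otherwise; `K` acts on `Y` so that `H^1(Y)_τ` is the sum of the `H_x`, `x ∈ T`. As `T` is stable
under `ker κ` and exactly one of the elements of `T` has the value `1/2` at `1`, `Y` is of signature `(1, |T| - 1)`, and `chi κ` is the
type of `E`. For `x ≠ y` in `T` theorem A maps the line `H_x ⊗ H_y ⊗ H_χ` to a line in `H^1(Z)`, whose type is `x + y + χ` (compare the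
Hodge types of all conjugates), and by Riemann's theorem `A_(x+y+χ)` is a factor of `Z`. So `H_x ⊗ H_y ⊗ H_χ ⊗ H_(-(x+y+χ))` consists of algebraic classes.

`ks`: Let `|T| ≤ 6`, so that `Y` is of signature `(1, b)`, `b ≤ 5`. Theorem C, (7.2) in `MumfordPowers`: if `b ≤ 4`, or if `b = 5` and the discriminant of some polarisation of `Y`
is `-1` modulo norms from `K`, there is for every `k` an abelian variety `Z_k` with an action of `K` and an isomorphism
`(Λ^k_K H^1(Y) ⊗_K H^1(E)^(⊗ (k - 1)))(k - 1) = H^1(Z_k)`, given by algebraic cycles. For `X ⊆ T`, `|X| = k`, it maps the line `⨂_X H_x ⊗ H_χ^(⊗ (k - 1))` to a line of type `∑_X x + (k - 1) χ`, and the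
conclusion is the same as for `surf`. The condition is satisfied, because every `Y` of even dimension `r = 1 + b`, `(-1)^b = (-1)^(r/2)`, with complex multiplication by a product `E' = E'_0 ⊗ K` of CM fields has a polarisation with
discriminant `(-1)^(r/2)`: the polarisations are `tr_(E'/K)(λ x x̄)`, `λ ∈ E'_0` with given signs, of discriminant `disc(E'_0) N(λ)`. If the prime number `ℓ` is not split in `K`, and all places of `E'_0` over `ℓ`
are split in `E'`, the form is over `K_ℓ` a sum of hyperbolic planes; if a place over `ℓ` is not split, the discriminant at `ℓ` is changed if `λ` is multiplied there by an element which is not a norm. So we can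
find `λ` locally everywhere; the number of the places of `E'_0` where it is not a norm is even, since this is true for the discriminants over `ℚ`, and we can make it even for each of the factors of `E'_0`, changing `λ` at
two places over the same prime number `ℓ`, inert in `K` and totally split in `E'_0`. Then `λ` exists by class field theory.

`red`: `A_f` has good reduction at the places over `P` after a finite extension, by the formula of Shimura and Taniyama the reduction is isogenous to a power of `A_w` with
`w = avg D f`, since the slope for the embedding `g` is the number of all `d ∈ D` with `f (d g) = 1/2`, divided by `|D|`; the line `H_f`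
specialises to a line in the space `H_w`, and `V(S)` to a line in `V(S.map (avg D))`, which is irreducible under the endomorphisms.

The relations used in the proof below: let `Γ = G / core w` be dihedral of order `8`, so that
`E_w` is a quartic CM field which is not Galois. The group `ker κ` maps onto `Γ`. For `n ∈ Γ` let `[n]` be the type which
on `ker κ` is `1/2` on the preimage of `n` and `-1/2` elsewhere: the abelian variety has dimension `8` and the signature `(1, 7)`.
`surf` gives `[{a, b}] = [a] + [b] + χ`, where `[X]` is `1/2` on `X`; and for a reflection `h` the types `[{a, h a}]` form a set `T` of four elements with the signature `(1, 3)`, so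
`[{a, h a, b, h b}] = [a] + [h a] + [b] + [h b] + 3 χ`. Each of the `16` types of `Γ` is of this form, for exactly one `h`, and it
follows that all relations between them are in `Cls` (files `Dih`, `DihB`, `DihC`); the relations between weights of surfaces whose field is in the
same octic field are reductions of these (`ClA`, `ClB`).

## 5. From `A` to `U`

Frobenius is semisimple on `H(A^n)` (Weil), so `T^i(A^n)` for all `i` and `n` implies that numerical and
homological equivalence coincide on the powers of `A`, the motives in the thick category
`⟨h(A)⟩` are semisimple, and `T` holds for them. If `U'` is open in `Y`, then the part of weight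
`0` of `H^(2i)(U')(i)` is the image of `H^(2i)(Y)(i)` (Deligne), and Tate classes on `U'` are restrictions of
Tate classes on `Y`. For `f : U' → U` proper of degree `d > 0`, `f_* f^* = d`. Finally `T^i(U)` over a finite
extension of `k` implies `T^i(U)` over `k`.

## 6. Reductions of varieties of `Kum^n`-type

Let `X` be a projective variety of `Kum^n`-type over a number field or a local field of characteristic
`0`, with good reduction `X_0` over the finite field `k`. Its motive belongs to `⟨h(J)⟩`, `J` the
abelian fourfold with `H^1(J) = H^3(X)(1)` (O'Grady, Markman, Voisin, and the hand-in `KummerType` of
this pool for `MP_54b9c8_ag`); `J` has good reduction `J_0` because `H^3(X)` is unramified, and by specialisation of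
cycles the motive of `X_0` belongs to `⟨h(J_0)⟩`. So `T^i` holds for all powers of `X_0`, for their products with abelian surfaces and for
their open subvarieties, as far as `J_0` and the surfaces satisfy (1) or (2), in particular for all powers of `X_0`.

## 7. Characteristic zero

If `p` is totally split in `L`, then `D = 1`, weights with `e(w) = 1` are types, and the theorem is the corresponding statement on Hodge classes of
abelian varieties with complex multiplication: the Hodge conjecture holds for all powers of a CM abelian variety which satisfies (1)
or (2). For one group as in (e) this is contained in (7.1)(d) of `MumfordPowers`. Not covered by (2): several threefolds whose centres have the same Galois closure and do not contain `√-3`, for instance the four threefolds with complex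
multiplication by one sextic field `E` which contains no imaginary quadratic field: there are Weil classes for `E` in the products of four of them.

The bound in (1) is the limit of the method: let `E` be a CM field of degree six without imaginary quadratic subfields in which `p` is the product
of two primes of degree three; there are two simple abelian threefolds with centre `E`, an ordinary one and one with the slopes
`1/3`, `2/3`, whose weights satisfy `w = 3 w'`, and the classes for `{w, -w', -w', -w'}` are Weil classes for `E`.

## 8. The relations in (2)

If the spans of the weights of the groups are linearly independent, the part of `S` in each group has sum `0`; if the number of its elements is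
odd, one adds a weight `0` (this is why the supersingular elliptic curve is counted in (b)). In (a), a relation between the weights is a sum of relations
between those with at most four translates, which are treated by sections 2, 3 and 4, and relations which are multiples of `∑ x = m χ`, the sum over one half of the
orbit of one `w`, fixed by `ker ε`: this is a Weil class (`split` or `nonsplit`) with `|m| ≤ 2` and at most six weights in the cases (i), (ii), (iv), and does not
exist in the case (iii). For (d) and (e) see section 10.

## 9. K3 surfaces

Let `X` be a K3 surface over a finite field `k` of any characteristic, `ρ` the rank of its Néron-Severi group over the algebraic closure, and `T` the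
orthogonal complement of `NS(X)` in `H^2(X)(1)`, of rank `22 - ρ`; `k` is supposed to be large enough for the following.
If `ρ = 22`, all classes are algebraic. If `ρ < 22`, let `α` be an eigenvalue of Frobenius on `T`
and `E = ℚ(α) = ℚ(α^N)` for all `N > 0`, a CM field. The characteristic polynomial of Frobenius on `T` is a power of that of `α`, because each of its roots has a conjugate which is not integral at `p`, and
these are all conjugate over `ℚ_p`. After a finite extension `X` is the reduction of a K3 surface `X'` over a number field with complex multiplication,
such that all line bundles on `X` lift up to multiples and `T(X')` has dimension one over a CM field `E'` which contains `E`, and the Tate classes on `X × X` are algebraic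
(Ito, Ito and Koshikawa; the action of a maximal torus of the group of `X` lifts, and the
line `Fil^2` is stable under the torus and lies in the part of slope less than one, so it is orthogonal to `NS(X)`).

(i) Let `Y` be a product of K3 surfaces with `ρ ≥ 18`, abelian varieties whose simple factors have dimension at most two, and abelian varieties whose simple factors are one group as in (a) of (2), or
threefolds with `√-3` in `End⁰`. Then `T^i(Y)` holds for all `i`.

The rank of `T(X')` is `2` or `4`; since indefinite forms of rank five are isotropic there is an isometric embedding of `T(X')` in `U³ ⊕ ⟨-a⟩` (rational coefficients, any `a > 0`), and the motive of `X'` belongs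
to `⟨h(KS(X'))⟩` (known, see `MP_54b9c8_ag`). The weights of `H^1(KS(X'))` are `±z/2` or `(±z_1 ±z_2)/2`, where `±z_j` are the weights of `T(X')`, so the simple
factors of `KS(X')` have dimension at most two. `KS(X')` has potentially good reduction, and by specialisation of cycles `h(X)` belongs to the category generated by the motives of abelian surfaces
and elliptic curves over `k`. There is no condition on such factors in (a) and (d); apply (2) and sections 5 and 10.

(ii) If `ρ = 16`, then `T^i(X^n)` holds for all `i` and `n`.

A Tate class on `X^n` is a sum of products of algebraic classes with elements of `⨂ T_σ`, `σ` in a multiset of embeddings of `E`, `∏ σ(α) = 1`. If all these relations are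
consequences of `σ(α) · cσ(α) = 1`, the classes are products of Tate classes on `X × X`. Suppose that there is another one. Let `[E : ℚ] = 2 m`, `m ≤ 3`; the `σ(α)` are `α_1, …, α_m` and their inverses. The relations form a
subgroup `R` of `ℤ^m`, stable under the Galois group, which permutes the `±e_j` transitively. As `ℚ(α^N) = E`, no multiple of `e_j` or of `e_i ± e_j` (`i ≠ j`) except zero belongs to `R`. So
`m = 3`. The rank of `R` is not two, otherwise the valuations of `α_1, α_2, α_3` at the conjugates of a place would be proportional vectors and, being conjugate, equal up to signs. So `R` is generated by one vector, which is
`(±1, ±1, ±1)`; in other words, `E` contains an imaginary quadratic field `K` and the norm of `α` from `E` to `K` is `1`. Now the rank of `T` is `6`, `E' = E`, and `T(X')` is a hermitian space of dimension three and signature `(1, 2)` over `K`. It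
is isotropic (Landherr), so `T(X') = U² ⊕ B` with `B` negative definite of rank two, which embeds in `U³ ⊕ ⟨-a⟩` for a suitable `a`. Again `h(X')` belongs to `⟨h(KS(X'))⟩`, and `KS(X')` is isogenous to a power of an abelian fourfold. Apply (1).

(iii) Let `ρ` be `12` or `14`. If `E` contains no imaginary quadratic field in which `p` is not split, or if `E` contains `ℚ(√-3)` or `ℚ(i)`, then `T^i(X^n)` holds for all `i` and `n`.

Suppose that `R ≠ 0`. As in (ii) `m = 4` or `5`, and the rank of `R` is less than `m - 1`. If `m = 5`, an element of order five of the Galois group acts on `ℚ^5` as a cycle (for suitable signs), so the rank of `R` is one. If `m = 4` and the rank of `R` is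
two, the Galois group acts faithfully on the plane `ℚ^4 / Rℚ`, in which the images of the `±e_j` are an orbit of eight vectors, so it is the dihedral group of order eight of all signed permutations of two coordinates, and the valuations of the `α_j^±` are the values of a linear form at these eight vectors.
They are `0` or `±t`, and this is only possible if the vectors lie on the axes or diagonals, where an orbit has only four elements. So `R` is generated by `(±1, …, ±1)`, and `E` contains an imaginary
quadratic field `K` such that the norm of `α` is `1`; the two places at which `α` or its inverse is not integral lie above the same place of `K`, so `p` is not split in `K`. This proves the first case. Let `K ⊆ E` now be `ℚ(√-3)` or `ℚ(i)`. Then `E' = E`, and `h(X')`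
belongs to `⟨h(Y × E_K)⟩`, where `Y` has complex multiplication by `E`, of dimension `m` (`MP_54b9c8_ag`, `EisensteinGaussK3`: the part of `T(X')` for an embedding of `K` is the tensor product of those of `H^1(Y)` and `H^1(E_K)`). Apply (1) if `m = 4`. If `m = 5`, `K` is the only imaginary quadratic field in `E`, so we may
suppose that `p` is not split in `K`; then the reduction of `E_K` is supersingular, the ten weights of `Y` are different, its reduction is simple of dimension five, and (2), (a), (ii) applies.

(iv) If `ρ = 10` and `E` is of degree twelve, contains `√-3` and a totally real Galois extension of `ℚ` of degree six, then `T^i(X^n)` holds for all `i` and `n`. (`E' = E`, and as in (iii) `h(X')` belongs to `⟨h(Y × E_K)⟩`,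
`K = ℚ(√-3)`, where `Y` has complex multiplication by `E`; apply (e).)

By de Cataldo and Migliorini, and specialisation, the Hilbert schemes of points of these surfaces have the same property.

## 10. The groups with (d) and (e)

If `p` is not split in `ℚ(√-3)`, the spans of the weights contain no multiple of `κ` except `0`, and are linearly independent. (d) is then a case of (a), and in (e) the proof below gives, without the last step,
that all relations are in `Gen2`. Let `p` be split, that is, `κ = 1` on `D`, and let `s_j χ` be the sum of the part of `S` in the group `j`, `∑ s_j = 0`.

(e) Let `H = ker κ`. For a coset `C = B a` in `H` let `[C]` be the type which on `H` is `1/2` on `C` and `-1/2` elsewhere. These types are at most six, and a set `T` as in `ks`. Every type `f` which is invariant under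
left translations by `B` is `∑_X [C] + (|X| - 1) χ`, `X` the set of the `C` on which `f` is `1/2` (`f = -χ` if `X` is empty), and `ks` for `X` says that `f` can be replaced by the elements of `X` and `|X| - 1` times `χ`. So the part of `S` in
the group can be expressed by `χ` and the mean values of the `[C]` over `D`. `D` normalises `B` and acts on the cosets; all orbits have the same length `δ ≤ 6`. The mean value of `[C]`, plus `χ`, is `1/δ` on the orbit of `C` and `0` on the rest of
`H`. These functions have disjoint supports, so the sum is a multiple of `χ` only if all orbits occur equally often, `m` times, say, and `ks` for the union `X` of `r` cosets out of each orbit, `r ≡ m` modulo `δ`,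
shows that they can be replaced by one weight which is a multiple of `χ`, `(2 r/δ - 1) χ`, and some `χ`. By the same argument there are no relations between these weights for different `r` but those in `Gen2`.
With `δ ≤ 6` they can be expressed by the classes of `χ`, `χ/2`, `χ/3`, `χ/5`, and if `χ/n` occurs, `n` times `χ/n` can be replaced by `χ`.

(d) The dimension of `A_w` is at most three, so `w(1)` is a multiple of `1/6`, and `3 s_j` is an integer. The part of `S` in the group, together with weights `±χ` and `±χ/3`, of dimension one and three, whose number and signs are such
that the sum is zero, is a relation as in (a). It follows that the part can be replaced by `χ` and `χ/3`, and that `3` times `χ/3` can be replaced by `χ`.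

So in both cases the part of `S` in the group `j` has the class which belongs to `s_j χ`, a combination of the classes of the `χ/n`, `n = 1, 2, 3, 5`, and the sum of these classes is zero since `∑ s_j = 0`.

Threefolds with `√-3` in `End⁰`: if the centre is of degree two, (d) contains no condition. Let the centre `E_i` be of degree six, `N` its Galois closure. Then `N = F(√-3)`, `F` totally real and Galois of degree three or six, and
the threefolds with the same `N` satisfy (e). The span of their weights is contained in the sum of `ℚ κ` and representations `κ ⊗ ρ`, where `ρ` is the irreducible representation of dimension two of the Galois group of `F`; the kernel of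
`κ ⊗ ρ` belongs to `N`. The weights of the elliptic curves, surfaces and threefolds with a centre of degree two span a representation of a `2`-group, those of the other threefolds one of a `2`-group and irreducible representations whose kernels belong
to the Galois closures of the centres. So, if these closures are different from the fields `N`, only multiples of `κ` are common to the spans of the groups: for each `N` the threefolds with this `N`, and all other factors.
-/

namespace Pool.Agent.Results.MP_2a05c8_ag.AbelianProducts

open Pool.Agent.AVF Pool.Agent.AVG Finset NumberField IsDedekindDomain

open Classical in
theorem result {L : Type} [Field L] [NumberField L] (c : L ≃ₐ[ℚ] L) (hc : ∀ g, c * g = g * c)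
    (P : HeightOneSpectrum (𝓞 L)) (q : ℕ) (hq : 0 < ord P (q : L))
    -- the eigenvalues of Frobenius on `H^1(A)`
    (A : Finset L) (hA : ∀ π ∈ A, IsWeil c q π) (hst : ∀ g : L ≃ₐ[ℚ] L, ∀ π ∈ A, g π ∈ A)
    -- a Tate class
    (S : Multiset L) (hS : ∀ π ∈ S, π ∈ A) (k N : ℕ) (hN : 0 < N) (hk : S.card = 2 * k)
    (hprod : S.prod ^ N = (q : L) ^ (k * N)) :
    -- `κ` is the character of the field of a square root of `-3`
    (∀ (s : L) (κ : (L ≃ₐ[ℚ] L) →* ℤˣ), s ^ 2 = -3 → (∀ g : L ≃ₐ[ℚ] L, g s = ((κ g : ℤ) : L) * s) →
      κ c = -1 →
      -- (1) the left hand side is twice the sum of the dimensions of the simple factors, each counted
      -- once; (2) is the other case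
      (∑ w ∈ A.image (wt P q), idx (dec P) w ≤ 10 ∨ HasParts (dec P) c κ (A.image (wt P q))) →
      Gen2 (dec P) c κ (S.map (wt P q))) ∧
    -- cases where Weil classes for imaginary quadratic fields are enough
    (∑ w ∈ A.image (wt P q), idx (dec P) w ≤ 10 →
      ((∀ u ∈ A, ∀ v ∈ A, ∀ x ∈ A, wt P q u + wt P q v = wt P q x →
        ¬ (dim2 (dec P) (wt P q u) = 4 ∧ dim2 (dec P) (wt P q v) = 4 ∧
          dim2 (dec P) (wt P q x) = 4)) ∨
      ((∀ π ∈ A, wt P q π ≠ 0) ∧ (S.map (wt P q)).Nodup)) →
      Gen (dec P) c (S.map (wt P q))) := by
  have hsum := sum_wt hc hq (fun π hπ => hA π (hS π hπ)) hN hk hprod
  have hE : Even (S.map (wt P q)).card := by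
    rw [Multiset.card_map, hk]
    exact even_two_mul k
  have hSX : ∀ w ∈ S.map (wt P q), w ∈ A.image (wt P q) := by
    intro w hw
    obtain ⟨π, hπ, rfl⟩ := Multiset.mem_map.1 hw
    exact mem_image_of_mem _ (hS π hπ)
  have hX := isSys_image hc hq hA hst
  constructor
  · intro s κ _ _ hκc h
    exact main_rx hc hκc hX h hSX hE hsum
  · intro hdim hex
    refine main hc hX hdim hSX hE hsum ?_
    rcases hex with h | h
    · left
      intro w hw w' hw' hww
      obtain ⟨u, hu, rfl⟩ := mem_image.1 hw
      obtain ⟨v, hv, rfl⟩ := mem_image.1 hw'
      obtain ⟨x, hx, e⟩ := mem_image.1 hww
      have h1 := h u hu v hv x hx e.symm
      rw [e] at h1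
      exact h1
    · right
      refine ⟨?_, h.2⟩
      intro h0
      obtain ⟨π, hπ, e⟩ := mem_image.1 h0
      exact h.1 π hπ e

end Pool.Agent.Results.MP_2a05c8_ag.AbelianProducts
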