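import Pool.Agent.FT.FinMain

/-!
# The Tate conjecture for Fermat varieties over finite fields

Let `X_m^n` be the Fermat variety of degree `m` and dimension `n` in characteristic `p`, `p` prime to
`m`. The theorem of this file is the combinatorial part of a proof of the Tate conjecture over all
finite fields of characteristic `p` for all products of Fermat varieties of degree `m` (or degrees
dividing `m`), and for all smooth projective varieties dominated by them and the open subvarieties,
for the following `m` and `p`. The theorem contains a proposition `Z`.

If `Z` is false, only published algebraic cycles are used:

* `m < 52`, `m` not `35`, `44`, `51`, all `p`;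
* `m = 2^a 3^b 5^c`, `2^a 3^b 7^c`, `3^a 11^b`, `2 3^a 11^b`, `3^a 13^b`, `2 3^a 13^b`, `l^a`, `2 l^a`
  for primes `l`, and `2^a l^b` for primes `l` congruent to `7` modulo `8`, all `p`;
* `-1` is a power of `p` modulo the product of the odd primes dividing `m`.

Moreover `t ⊗ t` is algebraic for the Tate classes `t` in the lines `V(S)` below, for all `m` and `p`.
If `Z` is true, the further cycles described below are used, for example for

* `m` without prime factors congruent to `1` modulo `4`, all `p`;
* `m < 105`, with the exception of `m = 87`, all `p`;
* `m = 2^a 3^b 13^c`, `2^a 5^b 11^c` or `2^a 5^b 19^c`, all `p`;
* `p` has odd order modulo `m` and `m` is allowed (859 of the `m ≤ 1000`).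

In general there is a parity condition for sets of odd prime factors of `m`. Known are: `-1` is a
power of `p` modulo `m` (Shioda and Katsura), `m` prime or small.

## Characters

For a multiset `S` of nonzero elements of `ℤ/m` with sum zero let `V(S)` be the part of the
`ℓ`-adic cohomology of degree `|S| - 2` of `X_m^(|S| - 2)` on which `μ_m^|S| / μ_m` acts by `S`; it
has dimension one, and the Frobenius of `F`, `q = |F|` congruent to `1` modulo `m`, acts by a product
of Gauss sums, divided by `q` (Weil). So the Tate classes of products of Fermat varieties of degree
`m` over `F` (`F` large enough) are spanned by powers of hyperplane classes and the `⊗ V(S_j)` with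
`IsTate` for the sum `S` of the `S_j`; this is equivalent to `TateN p S` (Stickelberger). By
`x_i ↦ x_i^(M/m)` the line `V(S)` is algebraic on `X_m` if and only if the line of the image of `S`
is algebraic on `X_M`. Shioda and Katsura 1979: `V(S + T)` and `V(S) ⊗ V(T)` are equal up to a
twist (as motives), `V({x, -x})` is a Tate motive. So the algebraic characters are closed under
joins and cancellation of pairs.

## The generators

* `standard`: Aoki 1987, in characteristic zero; now reduce modulo `p`.
* `curves`: `S` and `T` are in `Curve Z m`, so `V(S)` and `V(T)` are up to a twist direct factors of
  rank one of `h^1` of curves: `V({x, y, z})` is a line in the cohomology of the Fermat curve, and for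
  the second sort (only if `Z` is true) see below. Tate classes of degree two on a product of two
  curves are algebraic (Tate 1966).

If `Z` is true:

* `hodge`: `Gen L` consists of characters which are algebraic in characteristic zero: see the
  comment of `FermatQR.lean` (Shioda and Katsura, Aoki, Lefschetz, Conte and Murre, modular curves);
  now reduce modulo `p` (`X_m` has good reduction; here `L` may be divisible by `p`).
* `plane`: for these `S` the line `V(S)` is up to a twist `Λ² W`, `W` a direct factor of rank two of
  `h^1` of a curve `C` (see below), so it is given by a Tate class of degree two on `C × C`.
* `squares`: let `S` be invariant under the squares of the units, with elements of odd order, even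
  and with sum zero. It is shown in the comment of `FermatQR.lean`, (2.1) to (2.6), that `M(S)` is in
  characteristic zero, up to a twist, a product of direct factors of rank one of `h^1` of elliptic
  curves with complex multiplication. (For elements of odd order only the products
  `∏ q_l^{c_l}` occur in (2.5), the assumption that `S` is a Hodge character is only used for the
  elements whose order is divisible by `8` and in the last step of (2.6); `[1/4]` does not occur and
  `S = S(ρ) - c [1/3]` in `U`, `3 ∣ c`.) The isomorphism is given by an algebraic correspondence
  between Fermat varieties of degree `m` and a product of elliptic curves, both have good reduction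
  at the places above `p` after an extension of the number field, so it holds modulo `p` too. If `S`
  is a Tate character in characteristic `p`, then `V(S)` is given by a Tate class on a product of
  elliptic curves over a finite field. These are algebraic (Spiess 1999).

## Coverings with the groups PSL(2, 11) and PSL(2, 19)

Let `(G, l)` be `(PSL(2, 11), 11)` or `(PSL(2, 19), 19)`. There are `g_0, g_1, g_∞` in `G` of orders
`5, 2, l` with product `1`: the sum of `χ(g_0) χ(g_1) χ(g_∞) / χ(1)` over the irreducible characters
is `1` for `l = 11` and `10/9` for `l = 19`. They generate `G`, since no proper subgroup contains
elements of the orders `2` and `l` (the maximal subgroups with elements of order `l` have the orders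
`55` and `171`). Let `C → P^1` be the covering with group `G × μ_5`, branched over `0, 1, ∞`, given
by these elements and the covering `y^5 = x`, and let `ρ` be the product of an irreducible
representation of `G` of degree `(l - 1) / 2` and a nontrivial character of `μ_5`. By the character
tables, the exponents of `ρ` (the eigenvalues of the local monodromies are `exp(2πi x)` for the
exponents `x`) are, for some `a` in `{1, 2, 3, 4}` and with `b` running over the nonzero squares or
over the other nonzero elements modulo `l`:

* `l = 11`: `0, 1/5, 2/5, 3/5, 4/5` at `0`; `0, 0, 0, 1/2, 1/2` at `1`; the `a/5 + b/11` at `∞`;
* `l = 19`: `x - a/5`, `x = 0, 1/5, 1/5, 2/5, 2/5, 3/5, 3/5, 4/5, 4/5`, at `0`; `0` (five times) and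
  `1/2` (four times) at `1`; the `a/5 + b/19` at `∞`.

By (2.2) in the comment of `FermatQR.lean`, which holds for all Galois coverings of the projective
line, `det W(ρ)` is `M(S(ρ))` up to a twist. Here `W(ρ)` is a direct factor of `h^1(C)` (with
coefficients in `E`), `S(ρ)` consists of the nonzero exponents, and the rank of `W(ρ)` is the number
of the nonzero exponents minus twice the degree of `ρ`: `11 - 10 = 1` and `20 - 18 = 2`. Modulo pairs
`S(ρ)` is `{a/5 + b/11 | b}` for `l = 11`, and `{a/5} + {a/5 + b/19 | b}` for `l = 19` (among the
exponents at `0` each element of `1/5, .., 4/5` occurs twice, but `-a/5` only once). These are the
unit multiples of the multisets in `Curve` and `plane`. Since `p` does not divide `m`, it does not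
divide the order of `G × μ_5` (the primes `2, 3, 5, l` divide `m`). So `C` has good reduction at the
places above `p` after an extension of the number field (Grothendieck; Beckmann 1989), and the
correspondences which give the isomorphism between `V(S)` and `det W(ρ)` can be reduced modulo `p`.

## The proof

The relations between the classes of the characters modulo algebraic ones are studied in the limit
over all levels prime to `p`. Every odd distribution which is invariant under `p` and kills
the algebraic characters is on Tate characters a function `b` of the sets of prime factors of the odd
orders of the elements, with values killed by `2`. The number `b(V)` vanishes if `-1` is a power of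
`p` modulo the product of `V`: for odd `p` let `2^s` be the highest power of `2` dividing `p - 1` and
`y` of order `2^(s+2)`, then `{y, y + 1/2, -2 y + 1/2}` is a supersingular triple with elements of
even order, because `p (2 y) = 2 y + 1/2`, and `b(V)` is the value of `b` at `{x, x, -2 x}` plus this
triple, for `x` with order the product of `V`. Some explicit pairs of Fermat curves give more sets
with `b(V) = 0`, and if `Z` is true so do the square invariant characters, the two lists and the two
coverings. For the other sets the number of the elements of `S` with this set is even by hypothesis,
or by one of several theorems on Tate characters: weights with quadratic characters and with the cubic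
roots of unity modulo `13`, the parity of the number of elements of odd order, and sawtooth sums over
half systems modulo `4` (lemma of Gauss).
-/

set_option autoImplicit false

namespace Pool.Agent.Results.MP_2a05c8_ag.FermatAllChar

open Pool.Agent.FTF

/-- Let `F` be a finite field of characteristic `p` and let `S` be a Tate character of level `m`,
which means that the product of the Gauss sums for the elements of `S` is a root of unity times
`q ^ k`. If `S` satisfies `Good`, then it is algebraic: its image in some `ℤ/M` is in the system
`Alg Z p M`. -/
theorem result (Z : Prop) (p : ℕ) [Fact p.Prime] (F : Type) [Field F] [Fintype F] [CharP F p]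
    (m : ℕ) [NeZero m] (χ : MulChar F ℂ) (hχ : orderOf χ = m) (ψ : AddChar F ℂ) (hψ : ψ ≠ 1)
    (S : Multiset (ZMod m)) (hS : IsTate χ ψ S) (hG : Good Z p S) : Algebraic Z p S :=
  main_gauss Z p F m χ hχ ψ hψ S hS hG

end Pool.Agent.Results.MP_2a05c8_ag.FermatAllChar
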