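import Mathlib
import Pool.Agent.FQ.MainR

/-!
# Hodge and Tate classes on Fermat varieties

The theorem of this file is the combinatorial part of a proof of the Hodge conjecture, and of the
Tate conjecture over finitely generated fields of characteristic `0` or `p`, `p` congruent to `1`
modulo `d`, for the Fermat varieties `X_d^n` (dimension `n`, degree `d`) for most pairs `(n, d)`,
among them all `(n, d)` with `d < 87` and all `(n, d)` such that no odd prime factor of `d` is
congruent to `1` modulo `4`. This comment contains the geometric part: all members of the system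
`Gen Z m` are algebraic. If `Z` is false this is in the literature; if `Z` is true it uses the new
classes of the sections 2 and 3.

## 1. Characters

Let `E` be a number field in `ℂ` which contains enough roots of unity. For a multiset `S` of nonzero
elements of `ℤ/m` with sum zero let `V(S)` be the part of the cohomology of degree `|S| - 2` of the
Fermat variety of degree `m` and dimension `|S| - 2`, with coefficients in `E`, on which the group
`μ_m^|S| / μ_m` acts by the character `S`; it has dimension one. `V(S)` and all its conjugates
`V(tS)`, `t` a unit, are of type `(k, k)` if and only if `2 k + 2 = |S|` and `Hodge S` (the sum of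
all elements is zero then). The Hodge classes, and by Pohlmann and Deligne the Tate classes, of
`X_m^n` in characteristic zero are spanned by the powers of the class of a hyperplane and these
`V(S)`; the same is true for the Tate classes in characteristic `p`, `p` congruent to `1` modulo `m`
(Weil, Stickelberger), so that the Tate conjecture in these characteristics follows from the Hodge
conjecture by reduction modulo `p`. The Hodge classes of a product of Fermat varieties of degrees
dividing `m` belong to the tensor products of the `V(S_j)` with `Hodge (∑ S_j)`. For `d ∣ m` the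
map `x_i ↦ x_i^(m/d)` shows that `V(S)` is algebraic on `X_d` if and only if `V((m/d) S)` is
algebraic on `X_m`; so we view `S` as a multiset of elements of `ℚ/ℤ`, and the theorem is applied
with `m` a multiple of `12 d`.

Motives: homological motives with coefficients in `E` in the tensor category generated by the
motives of abelian varieties; homological and numerical equivalence agree there (Lieberman), so this
category is semisimple (Jannsen). Fermat varieties belong to it (Shioda and Katsura), isomorphisms
are given by algebraic correspondences. `M(S)` is the motive of `V(S)`, of rank one. Pic is the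
group of the motives of rank one up to isomorphism and Tate twist. A motive of rank one which is of
type `(k, k)` together with all its conjugates is algebraic if and only if it is trivial in Pic.

(1.1) Shioda and Katsura 1979: `M(S + T)` is `M(S) ⊗ M(T)` up to a twist, `M({x, -x})` is a Tate
motive. So joins of algebraic characters are algebraic, and pairs can be cancelled.
(1.2) Aoki 1987 (Shioda 1979 for `r = 2`): the `standard` elements are algebraic.
(1.3) Hodge characters with four elements are algebraic by the theorem of Lefschetz on `(1, 1)`
classes.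

So the system `Gen False m` is algebraic. Let `F` be the free abelian group on the nonzero elements
of `ℚ/ℤ`, `[0] := 0`, and `U` its quotient by `[1/2]`, by all `[x] + [-x]` and by all
`∑ [y] - [x]`, sum over all `y` with `e y = x` (`e ≥ 1`, all `x`): (DH). The elements of sum zero of
the subgroup generated by these relations are combinations of the pairs and standard elements (only
the even multiples of `[1/2]` have sum zero, and `[1/2] + [1/2]` is a pair). So `M(S)` in Pic
depends only on the class of `S` in `U`, and `M` is a homomorphism on the group of the classes in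
`U` of the elements of sum zero.

## 2. Square invariant Hodge characters (`square`)

THEOREM. Let `S` be a Hodge character, `|S|` even, with `u² S = S` for all units `u` modulo `m`.
Then `M(S)` is algebraic.

(2.1) Let `C` be a smooth projective curve of genus `g` over `ℂ`, `L` a local system of rank one and
finite order on `C - {x_1, .., x_n}` with local monodromy `exp(2πi a_j)`, `a_j ≠ 0` in `ℚ/ℤ`, at
`x_j`. Then the determinant of `H^1(C - {x_j}, L)`, of rank `N = 2 g - 2 + n`, is isomorphic to
`M({a_1, .., a_n})` up to a twist (`n = 0`, `L` not trivial: to a Tate motive).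

Proof (after Deligne, Anderson and Laumon). Put `D = ∑ x_j`, `V = C - D`, and let `L_N` be the local
system on `Sym^N V` given by `L`. Only `H^1_c(V, L)` is not zero, so by Künneth its determinant is
`H^N_c(Sym^N V, L_N)` and the other cohomology groups with compact support of `L_N` vanish. Let `P`
be the set of the isomorphism classes of line bundles `A` of degree `N` with nonzero elements `t_j`
of the fibres at the `x_j` (a torsor under the generalised Jacobian). `f : Sym^N V → P` maps a
divisor to its line bundle with the values of the section `1`; `L_N` is the pull back of a character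
sheaf `L'` on `P`. The fibre of `f` over `(A, t)` is the set of the sections of `A` with the values
`t_j`: an affine space of dimension `g - 1` if `A` is not isomorphic to `K(D)`; for `A = K(D)` it
consists of the differential forms with simple poles with the residues `t_j`, is empty if
`∑ t_j ≠ 0` and an affine space of dimension `g` if `∑ t_j = 0`.
Let `W` be the part of `P` with `A = K(D)`, the quotient of `G_m^n` by `G_m`, and `W_0` the part of
`W` with `∑ t_j = 0`. Since `L'` is not trivial on `P` and on `W` (there it is given by the `a_j`),
the cohomology with compact support of `L'` on `P` and on `W`, so on `P - W`, vanishes, and so does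
that of `L_N` on the preimage of `P - W`. Therefore the restriction to the preimage `I` of `W_0`
gives isomorphisms of `H^N_c(Sym^N V, L_N)` with `H^N_c(I, L_N)` and with
`H_c^(n - 2)(W_0, L')(-g) = V({a_j})(-g)`. They are induced by an algebraic correspondence: let
`V' → V` be the cyclic covering which trivialises `L` and `Y_0 → W_0` the one given by the open part
of the Fermat variety. The fibre product `J` of `Y_0` and the preimage of `I` in `V'^N` over `W_0`
is closed in `V'^N × Y_0` and finite over `V'^N`, hence closed in `V'^N × Y`, `Y` the Fermat
variety; its closure in `C'^N × Y` induces on the parts in question, on which cohomology with and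
without compact supports agree, the isomorphism above up to a nonzero rational factor. For `n = 0`
use `Sym^(2g-2) C → Pic^(2g-2)`, whose fibres are projective spaces of dimension `g - 2`, over `K`
of dimension `g - 1`: the determinant is spanned by the class of the linear system `|K|`.

(2.2) Let `C → P^1` be a Galois covering with group `G`, `ρ` a representation of `G`, `N` its local
system, `W(ρ) = H^1(P^1, j_* N)`, a direct factor of a sum of copies of the motive `h^1(C)`, and
`S(ρ)` the multiset of all nonzero exponents of the local monodromies of `N`. Then `det W(ρ)` is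
`M(S(ρ))` up to a twist. Indeed, both sides are multiplicative in `ρ`, so by Brauer we may suppose
that `ρ` is induced by a character `λ` of a subgroup `H`. Then `W(ρ) = H^1(C/H, j_* λ)`, and if `λ`
has the exponent `b_y` at a point `y` with ramification index `e_y` over `P^1`, then `N` has there
the exponents `z` with `e_y z = b_y`. By (DH) `S(ρ)` has the class `∑ [b_y]` in `U`; now use (2.1),
if `λ` is not trivial, and that the determinant of `h^1(C/H)` is a Tate motive, if it is.

(2.3) Modular curves: let `C = X(n)`, `P^1 = X(1)`, and let `ρ` be a (virtual) representation of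
`SL_2(ℤ/n)` on which `-1` acts trivially. The exponents at `∞` are those of the spectrum `sp(ρ)`
of `T = (1 1; 0 1)`, those at the two other points are multiples of `1/2` and `1/3`. So in `U`:
`S(ρ) = sp(ρ) + c [1/3]` for an integer `c`. And `det W(ρ)` is in Pic a product of direct factors of
rank one of `h^1` of elliptic curves with complex multiplication and of their inverses: every simple
factor of the Jacobian of `X(n)` is a factor of the abelian variety of a newform `f` of weight `2`
on some `Γ_1(N)`. If `f` has complex multiplication this is isogenous over `ℂ` to a power of an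
elliptic curve with complex multiplication (Shimura 1971). If not, it is isogenous to a power of a
simple `B` whose endomorphism algebra is central simple of dimension `t²`, `t = 1` or `2`, over a
totally real field `F` with `dim B = t [F : ℚ]` (Ribet 1980, Momose 1981). So `h^1(B)` is
(for large `E`) the sum over the `σ : F → E` of `t` copies of a motive `V_σ` of rank two, simple,
of Hodge numbers `(1, 1)` for all embeddings of `E`; its determinant is of type `(1, 1)`
in `H^2(B) ⊗ E` for all embeddings, so spanned by a divisor: it is `E(-1)`. By semisimplicity `W(ρ)`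
is a sum of motives `V_σ` and of rank one factors belonging to elliptic curves with complex
multiplication.

(2.4) Let `l` be an odd prime, `c` prime to `l` and `q_l^c` the sum of the `[s/l]`, `s` in the coset
`c (F_l^*)²`. The even and the odd part of the Weil representation of `SL_2(F_l)` on the functions
on `F_l` (with `T φ(x) = exp(2πi c x²/l) φ(x)`) have the spectra `[0] + q_l^c` and `q_l^c`; `-1`
acts on them by `(-1/l)` and `- (-1/l)`. `SL_2(ℤ/4)` has a character with `T ↦ i`, `-1 ↦ -1`. By
tensor products, for distinct odd primes `l` in `R`, the products (in the group ring of `ℚ/ℤ`)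
`∏ q_l^{c_l}`, `R` not empty, are spectra of virtual representations on which `-1` acts trivially,
and so are, modulo multiples of `[1/4]` and `[-1/4]`, the products `[±1/4] ∏ q_l^{c_l}` (induction
on `R`: if `R` contains an `l` congruent to `1` modulo `4`, multiply `[±1/4] q_l^{c_l}`, a spectrum
of the odd part tensor the character of `SL_2(ℤ/4)`, by the product over `R - l`; if `l` is `3`
modulo `4`, multiply instead `[±1/4] ([0] + q_l^{c_l})`, which belongs to the even part, and
subtract the product for `R - l`).

(2.5) In `U` the class of a square invariant Hodge character `S` is a combination of the products in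
(2.4). The multiplicity function of `S` is constant on the classes `Q(x) = {u² x}`, `u` a unit
modulo the order `d` of `x`. (i) If `l² ∣ d`, `l` odd, or `l = 2` and `16 ∣ d`, then `Q(x)` is
stable under the addition of `1/l` and so, by (DH), a multiple of `Q(l x)` in `U`. So all prime
powers in `d` may be supposed to be primes, `4` or `8`. (ii) If `d` is twice an odd number, then
`x = 1/2 + z`, `[x] = [2 z] - [z]`. If `d` is odd or `4` divides `d` exactly, `Q(x)` is a product as
in (2.4). (iii) Let `8 ∣ d`. Write `[a; y]` for the sum of the elements `a/8 + u² y`, `y` of odd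
squarefree order. (DH) for `2` shows that `[a; y] + [a + 4; y]` is a sum over a class `Q(x)` with
`x` of order dividing `4 ord(y)`, and `[-a; -y] = - [a; y]`; so we need only the `[1; y]`.
(DH) for an odd prime `l ∣ ord(y)`, `y = y_l + y'`: `[1; y_l + y'] + [1; ν y_l + y']` (`ν` not a
square modulo `l`) is `[l; l y'] - [1; y']`. So modulo classes `Q(x)` with `x` of order dividing
`4 m'`, `m'` odd and squarefree, `S` is a combination `∑ c_k z_k`,
`z_k = [1; ∑_{l ∣ k} 1/l]`, `k ∣ m'`. Let `θ` be the odd one of the two quadratic characters of
conductor `8 k`. The functional `Φ(x) = ∑_t θ(t) B_1(⟨t x⟩)`, `t` a unit modulo `m`, vanishes on the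
relations defining `U`, on `S` (Hodge) and on all elements whose order is not divisible by `8 k`;
on `z_k` it is a nonzero multiple of `B_{1,θ} ≠ 0`, since all elements of `z_k` contribute with the
same sign. Taking `k` maximal with `c_k ≠ 0` one gets a contradiction; so all `c_k` are zero.

(2.6) So modulo pairs and standard elements `S = S(ρ) + a [1/4] + b [1/2] - c [1/3]` with a virtual
representation `ρ` of `SL_2(ℤ/4m')` on which `-1` acts trivially and `b = 0` or `1`. The sums are
zero, so `3 ∣ c`, `a` is even and `a/2 = b` modulo `2`. `M({1/4, 1/4, 1/2})` and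
`M({1/3, 1/3, 1/3})` are factors of `h^1` of elliptic curves with complex multiplication. By (2.2)
and (2.3) `M(S)` is in Pic a product of rank one direct factors `κ` of `h^1` of elliptic curves with
complex multiplication (`κ^{-1} = κ'(1)` for the other factor `κ'`). So, up to a twist, it is a
factor of rank one of the motive of a product of elliptic curves, and it is of type `(k, k)` for all
embeddings of `E`, so spanned by a Hodge class. The Hodge conjecture holds for products of elliptic
curves (Imai 1976, Murty 1984). So `M(S)` is trivial in Pic. QED

## 3. The two lists (`special`)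

The blocks `(1, 5, 9, 37)`, `(12, 45, 49, 50)` modulo `52` and `(1, 18, 34, 49)`, `(10, 13, 28)`,
`(22, 37, 43)` modulo `51` have sum zero. So `V(S)` occurs in the cohomology of degree `4` of a
product of Fermat varieties of dimension `4` and comes from a smooth model `Y` of the cyclic
covering `u^m = ∏ x_a^a` of the product of the projective spaces `∑ x_a = 0`, one for each block.

For `m = 52` put `x_1 = y_3² y_4 y_6²`, `x_5 = y_1 y_6`, `x_9 = y_2 y_4`, `x_37 = y_5³`,
`x_12 = y_7^13`, `x_45 = y_2 y_4 y_5 y_6`, `x_49 = y_1 y_4`, `x_50 = y_1 y_2 y_3`: then
`∏ x_a^a` is the `52`-nd power of `y_1² y_2² y_3 y_4² y_5³ y_6 y_7³`, both blocks are homogeneous if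
`y_1, .., y_7` have the degrees `8, 4, 1, 5, 3, 1, 1`, and this is a finite covering of the torus of
the cyclic covering. Elimination of `y_1` shows that `Y` is dominated by (a component of) the
hypersurface `y_6 y_7^13 + y_2 y_4 y_5 y_6² = (y_4 + y_2 y_3) (y_2 y_4 + y_5³ + y_3² y_4 y_6²)` of
degree `14` in the weighted projective space `P(4, 1, 5, 3, 1, 1)`; the sum of the weights is `15`.

For `m = 51` put `x_1 = y_1 y_3²`, `x_18 = y_5 y_6 y_7 y_8^17`, `x_34 = y_2³`,
`x_49 = y_3 y_4 y_5 y_6² y_7`, `x_10 = y_4`, `x_13 = y_5`, `x_28 = y_1`, `x_22 = y_1 y_5`,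
`x_37 = y_6`, `x_43 = y_4 y_7²`, of degrees `2, 8, 11, 2, 2, 4, 1, 1`: `∏ x_a^a` is the `51`-st
power of `y_1 y_2² y_3 y_4² y_5² y_6³ y_7³ y_8^6`, and elimination of `y_1 = - y_4 - y_5` and
`y_6 = - y_1 y_5 - y_4 y_7²` leads to the hypersurface
`y_1 y_3² + y_5 y_6 y_7 y_8^17 + y_2³ + y_3 y_4 y_5 y_6² y_7 = 0` of degree `24` in
`P(8, 11, 2, 2, 1, 1)` (for `y_2, y_3, y_4, y_5, y_7, y_8`), the sum of the weights is `25`.

Let `V'` be the normalisation of a component of such a hypersurface. By adjunction the sum of the
canonical class of `V'` and of an effective divisor (the different) has degree `< 0` on general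
complete intersection curves, so `V'` is uniruled (Miyaoka and Mori 1986), `Y` is uniruled, and the
Hodge conjecture holds for uniruled fourfolds (Conte and Murre 1978). So `V(S)` is algebraic.

## 4. Consequences

Let `d ≥ 1` and let `T_0` be the set of the odd primes which divide `d`, together with `2` if `4`
divides `d`. Apply the theorem with `Z` true at a level `m` divisible by `12 d` and by some
auxiliary primes `s` (for `Split`). The Hodge and Tate conjectures in the sense above hold

* for `X_d^n`, all `n`, if `T_0` is allowed: if no odd prime factor of `d` is `1` modulo `4`, or if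
  `T_0` has at most three elements any two of which form a good pair: `5, 13, 17` and the primes not
  `1` modulo `4` are good with each other, the other primes `p` congruent to `1` modulo `4` are good
  with the primes not `1` modulo `4` which are squares modulo `p`. These are all `d < 87`, and 859
  of the numbers `d` up to `1000` (exceptions: 87, 116, 123, 145, 148, 159, 174, 185, 205, ..);
* for all products of Fermat varieties (so of Fermat curves, and for the powers of their Jacobians)
  of degrees dividing such a `d`;
* for `X_d^n` if `d = a b` with `a` as in the first item and all prime factors of `b` larger than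
  `4 n + 9` (`2 n + 5` if `d` is prime to `3` or odd);
* for `X_d^n` if `d` is odd and `4 (n + 2) < (p - 1) (q - 1)` for the two smallest prime factors
  `p < q` of `d` (even with `Z` false, so with published geometry only);
* for `X_d^n` if `T_0` without the primes just named has four elements, all its proper subsets are
  allowed and the product of the `[l / 2]` is larger than `n + 2` (than `2 n + 4` if `d` is
  congruent to `2` modulo `4`), and in the other cases of the condition `Sparse`; e.g. for all `d`
  prime to `6` if `n < 6`.

For fixed even `n` the density of the degrees `d` for which the theorem gives the conjectures for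
`X_d^n` is 99.6 % for `n = 4`, 98.1 % for `n = 10`, 94 % for `n = 20`, 86 % for `n = 100` (with `Z`
false: 89 %, 82 %, 75 %, 62 %); it is always positive.

By semisimplicity of the Galois representations the Tate conjecture `T^i` holds also for all open
subvarieties of these varieties, and for all smooth projective varieties dominated by them.

Earlier work. Known are: `d` prime, `4` or `≤ 20`, all prime factors of `d` larger than `n + 1`
(Ran, Shioda 1979), `d = 21, 27` (da Silva), `n = 4` and `d ≤ 100` prime to `6`, and the structure
of the Hodge characters with few elements (Aoki 1983, 1987, 1991). For the relations between Jacobi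
sums and the square invariant characters: Yamamoto 1975, Das 2000; for the periods: Gross 1978,
Deligne 1982; for the determinants of cohomology: Anderson, Loeser, Laumon; for `q_l` and the class
number of the quadratic field of discriminant `-l`: Hecke.
-/

set_option autoImplicit false

namespace Pool.Agent.Results.MP_2a05c8_ag.FermatQR

open Finset

/-- Hodge characters: for all units `t` the representatives of the elements `t x`, `x ∈ S`, have
mean value `m / 2`. -/
def Hodge {m : ℕ} (S : Multiset (ZMod m)) : Prop :=
  ∀ t : (ZMod m)ˣ, 2 * (S.map fun x => ((t : ZMod m) * x).val).sum = m * S.card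

/-- Two Hodge characters, given by the level and the elements. -/
def special : List (ℕ × List ℕ) :=
  [(52, [1, 5, 9, 37, 12, 45, 49, 50]), (51, [1, 18, 34, 49, 10, 13, 28, 22, 37, 43])]

/-- The smallest system of multisets of elements of `ℤ/m` which contains

* the pairs `{x, -x}`, `x ≠ 0`,
* the standard elements: all `z` with `r z = r x`, and `- r x`, and `m / 2` if `r = 2`, where `r`
  is a prime divisor of `m` and `r x ≠ 0`,
* the Hodge characters with four elements, all nonzero,
* if `Z` holds: the Hodge characters with an even number of elements, all nonzero, which are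
  invariant under multiplication by the squares of the units,
* if `Z` holds: the multisets `{t (m / k) a | a ∈ l}` for the members `(k, l)` of `special` with
  `k ∣ m` and for the units `t`,

and is closed under joins and under the cancellation of pairs. -/
inductive Gen (Z : Prop) (m : ℕ) [NeZero m] : Multiset (ZMod m) → Prop
  | pair (x : ZMod m) (hx : x ≠ 0) : Gen Z m {x, -x}
  | standard (r : ℕ) (hr : r.Prime) (hrm : r ∣ m) (x : ZMod m) (hx : (r : ZMod m) * x ≠ 0) :
      Gen Z m ((univ.filter fun z : ZMod m => (r : ZMod m) * z = r * x).val + {-(r * x)} +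
        (if r = 2 then {((m / 2 : ℕ) : ZMod m)} else 0))
  | surface (S : Multiset (ZMod m)) (h0 : (0 : ZMod m) ∉ S) (hc : S.card = 4)
      (hS : Hodge S) : Gen Z m S
  | square (hZ : Z) (S : Multiset (ZMod m)) (h0 : (0 : ZMod m) ∉ S) (hc : Even S.card)
      (hS : Hodge S) (hu : ∀ u : (ZMod m)ˣ, (S.map fun x => (u : ZMod m) ^ 2 * x) = S) :
      Gen Z m S
  | listed (hZ : Z) (k : ℕ) (l : List ℕ) (h : (k, l) ∈ special) (hk : k ∣ m) (t : (ZMod m)ˣ) :
      Gen Z m ((l : Multiset ℕ).map fun a => (t : ZMod m) * ((m / k * a : ℕ) : ZMod m))
  | join (S T : Multiset (ZMod m)) (hS : Gen Z m S) (hT : Gen Z m T) : Gen Z m (S + T)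
  | cancel (S : Multiset (ZMod m)) (x : ZMod m) (hx : x ≠ 0) (hS : Gen Z m (S + {x, -x})) :
      Gen Z m S

/-- For primes: `l` is not `1` modulo `4`, or `l` is `5`, `13` or `17`. -/
def Nice (l : ℕ) : Prop := l % 4 ≠ 1 ∨ l = 5 ∨ l = 13 ∨ l = 17

/-- For primes `r` and `p`: `r` is not `1` modulo `4`, `p` is `1` modulo `4`, `r` is a square modulo
`p`, and some prime divisor `s` of `m` which is not `1` modulo `4` is not a square modulo `p`. -/
def Split (m r p : ℕ) : Prop :=
  r % 4 ≠ 1 ∧ p % 4 = 1 ∧ IsSquare (r : ZMod p) ∧
    ∃ s : ℕ, s.Prime ∧ s % 4 ≠ 1 ∧ s ∣ m ∧ ¬ IsSquare (s : ZMod p)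

/-- The good pairs of primes `p < q`. -/
def Good (Z : Prop) (m p q : ℕ) : Prop :=
  p * q ∈ [6, 10, 14, 15, 21, 33, 39] ∨ (Z ∧ ((Nice p ∧ Nice q) ∨ Split m p q ∨ Split m q p))

/-- The allowed sets of primes: at most three primes which form good pairs and, if `Z` holds, any
number of primes which are not `1` modulo `4`. -/
def Allowed (Z : Prop) (m : ℕ) (T : Finset ℕ) : Prop :=
  (Z ∧ ∀ l ∈ T, l % 4 ≠ 1) ∨ (T.card ≤ 3 ∧ ∀ p ∈ T, ∀ q ∈ T, p < q → Good Z m p q)

/-- The number of elements of `S` whose order is divisible by all `l ∈ T` (by `4` if `l = 2`); the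
elements whose order is `2` modulo `4` are counted twice. -/
noncomputable def cnt {m : ℕ} (S : Multiset (ZMod m)) (T : Finset ℕ) : ℕ :=
  (S.filter fun x => ∀ l ∈ T, (if l = 2 then 4 else l) ∣ addOrderOf x).card +
    (S.filter fun x => (∀ l ∈ T, (if l = 2 then 4 else l) ∣ addOrderOf x) ∧
      addOrderOf x % 4 = 2).card

/-- For the sets `T` of primes which are not allowed, few elements of `S` have an order divisible by
all of these primes: less than `[p / 2] [q / 2]` for any two primes `p < q` in `T`, or less than the
product of all `[l / 2]` if all proper subsets of `T` are allowed. -/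
def Sparse (Z : Prop) {m : ℕ} (S : Multiset (ZMod m)) : Prop :=
  ∀ T : Finset ℕ, (∀ l ∈ T, l.Prime) → ¬ Allowed Z m T →
    (∀ p ∈ T, ∀ q ∈ T, p < q → cnt S T < p / 2 * (q / 2)) ∨
      ((∀ l ∈ T, Allowed Z m (T.erase l)) ∧ cnt S T < ∏ l ∈ T, l / 2)

/-- The primes which are large compared to the number `c` of elements of `S` whose order they
divide: larger than `4 c + 1`, or larger than `2 c + 1` if all orders are prime to `3` or odd. -/
def Large {m : ℕ} (S : Multiset (ZMod m)) (r : ℕ) : Prop :=
  r.Prime ∧ 2 * (S.filter fun x => r ∣ addOrderOf x).card + 1 < r ∧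
    (4 * (S.filter fun x => r ∣ addOrderOf x).card + 1 < r ∨ (∀ y ∈ S, ¬ 3 ∣ addOrderOf y) ∨
      ∀ y ∈ S, ¬ 2 ∣ addOrderOf y)

open Classical in
/-- The elements of `S` whose order is not divisible by any large prime. -/
noncomputable def core {m : ℕ} (S : Multiset (ZMod m)) : Multiset (ZMod m) :=
  S.filter fun x => ∀ r, Large S r → ¬ r ∣ addOrderOf x

/-! ### The proof -/

theorem half_eq {l : ℕ} (hl : l.Prime) : Pool.Agent.SP.hh l = l / 2 := by
  have h := FQ.hh_eq hl
  unfold Pool.Agent.FS.hb at h
  rw [h]
  rcases hl.eq_two_or_odd with rfl | h2
  · rfl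
  · rw [if_neg (by rintro rfl; omega)]
    omega

theorem cnt_eq {m : ℕ} (S : Multiset (ZMod m)) (T : Finset ℕ) :
    Pool.Agent.SP.cntW S T = cnt S T := by
  unfold Pool.Agent.SP.cntW cnt
  induction S using Multiset.induction_on with
  | empty => rfl
  | cons x S ih =>
    rw [Multiset.map_cons, Multiset.sum_cons, ih, Multiset.filter_cons, Multiset.filter_cons,
      Multiset.card_add, Multiset.card_add]
    by_cases h : ∀ l ∈ T, (if l = 2 then 4 else l) ∣ addOrderOf x
    · have h' : ∀ l ∈ T, Pool.Agent.FS.hb l ∣ addOrderOf x := h
      rw [if_pos h', if_pos h]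
      by_cases h2 : addOrderOf x % 4 = 2
      · rw [if_pos ⟨by omega, by omega⟩, if_pos ⟨h, h2⟩, Multiset.card_singleton]
        omega
      · rw [if_neg (by omega), if_neg (fun h3 => h2 h3.2), Multiset.card_singleton,
          Multiset.card_zero]
        omega
    · have h' : ¬ ∀ l ∈ T, Pool.Agent.FS.hb l ∣ addOrderOf x := h
      rw [if_neg h', if_neg h, if_neg (fun h3 => h h3.1), Multiset.card_zero]
      omega

/-- the additional pairs -/
def PZ (Z : Prop) : Set (ℕ × ℕ) := {x | Z ∧ (x = (2, 13) ∨ x = (3, 17))}

theorem nice_of {Z : Prop} (hZ : Z) {l : ℕ} (hl : l.Prime) (h : Nice l) :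
    FQ.PPr l ∨ FQ.SpP (PZ Z) l := by
  rcases h with h | h | h | h
  · exact Or.inl (FQ.PPr_of hl h)
  · exact Or.inr (Or.inl h)
  · exact Or.inr (Or.inr (Or.inl ⟨h, hZ, Or.inl rfl⟩))
  · exact Or.inr (Or.inr (Or.inr ⟨h, hZ, Or.inr rfl⟩))

theorem res_of {m r p : ℕ} (h12 : 12 ∣ m) (hr : r.Prime) (hp : p.Prime) (h : Split m r p) :
    FQ.Res m r p := by
  obtain ⟨h1, h2, h3, s, hs, hs4, hsm, hsn⟩ := h
  have : Fact p.Prime := ⟨hp⟩
  have hp2 : p ≠ 2 := by rintro rfl; omega
  have hrp : (r : ZMod p) ≠ 0 := by
    intro h0
    rw [ZMod.natCast_eq_zero_iff] at h0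
    have := (Nat.prime_dvd_prime_iff_eq hp hr).1 h0
    subst this
    exact h1 h2
  have hsb : Pool.Agent.FS.hb s ∣ m := by
    unfold Pool.Agent.FS.hb
    split_ifs
    · exact dvd_trans (by norm_num) h12
    · exact hsm
  refine ⟨FQ.PPr_of hr h1, hp, h2, ?_, s, FQ.PPr_of hs hs4, hsb, ?_⟩
  · unfold FQ.chi
    rw [if_neg hp2, ← jacobiSym.legendreSym.to_jacobiSym]
    exact (legendreSym.eq_one_iff' p hrp).2 h3
  · unfold FQ.chi
    rw [if_neg hp2, ← jacobiSym.legendreSym.to_jacobiSym]
    exact (legendreSym.eq_neg_one_iff' p).2 hsn

theorem pair_of {p q : ℕ} (hp : p.Prime) (hpq : p < q)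
    (h : p * q ∈ [6, 10, 14, 15, 21, 33, 39]) :
    (p, q) ∈ [(2, 3), (2, 5), (2, 7), (3, 5), (3, 7), (3, 11), (3, 13)] := by
  simp only [List.mem_cons, List.not_mem_nil, or_false] at h
  have hp6 : p ≤ 6 := by
    by_contra hcon
    push Not at hcon
    have : 7 * 8 ≤ p * q := Nat.mul_le_mul (by omega) (by omega)
    omega
  have hp2 := hp.two_le
  have h4 : p ≠ 4 := by rintro rfl; exact absurd hp (by norm_num)
  have h6 : p ≠ 6 := by rintro rfl; exact absurd hp (by norm_num)
  simp only [List.mem_cons, List.not_mem_nil, Prod.mk.injEq, or_false]
  interval_cases p <;> omega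

theorem allowed_of {Z : Prop} {m : ℕ} (h12 : 12 ∣ m) {T : Finset ℕ} (hT : ∀ l ∈ T, l.Prime)
    (h : Allowed Z m T) : FQ.AlM Z (PZ Z) m T := by
  rcases h with ⟨hZ, h⟩ | ⟨h1, h2⟩
  · exact Or.inl ⟨hZ, fun l hl => FQ.PPr_of (hT l hl) (h l hl)⟩
  · refine Or.inr ⟨h1, fun p hp q hq hpq => ?_⟩
    have hp' := hT p hp
    have hq' := hT q hq
    rcases h2 p hp q hq hpq with h | ⟨hZ, h⟩
    · exact Or.inl (Or.inl (pair_of hp' hpq h))
    · refine Or.inr ⟨hZ, ?_⟩
      rcases h with ⟨h3, h4⟩ | h | h
      · exact Or.inr (Or.inl ⟨h12, nice_of hZ hp' h3, nice_of hZ hq' h4⟩)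
      · exact Or.inr (Or.inr (Or.inl (res_of h12 hp' hq' h)))
      · exact Or.inr (Or.inr (Or.inr (res_of h12 hq' hp' h)))

theorem gen_of {Z : Prop} {m : ℕ} [NeZero m] {S : Multiset (ZMod m)}
    (h : FQ.Gen Z (PZ Z) m S) : Gen Z m S := by
  induction h with
  | pair x hx => exact Gen.pair x hx
  | standard r hr hrm x hx => exact Gen.standard r hr hrm x hx
  | surface S h0 hc hS => exact Gen.surface S h0 hc hS
  | fourfold p q k l h hP hk t =>
    obtain ⟨hZ, hpq⟩ := hP
    refine Gen.listed hZ k l ?_ hk t
    unfold FSU.extra at h
    simp only [List.mem_cons, List.not_mem_nil, Prod.mk.injEq, or_false] at h hpq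
    unfold special
    simp only [List.mem_cons, List.not_mem_nil, Prod.mk.injEq, or_false]
    rcases hpq with ⟨rfl, rfl⟩ | ⟨rfl, rfl⟩
    · left
      norm_num at h
      exact h
    · right
      norm_num at h
      exact h
  | square hZ S h0 hc hS hu => exact Gen.square hZ S h0 hc hS hu
  | join S T _ _ ihS ihT => exact Gen.join S T ihS ihT
  | cancel S x hx _ ih => exact Gen.cancel S x hx ih

end Pool.Agent.Results.MP_2a05c8_ag.FermatQR

open Pool.Agent.Results.MP_2a05c8_ag.FermatQR

/-- Let `Z` be a proposition, `m` divisible by `12` and `S` a Hodge character with an even number of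
elements, all nonzero. If the core of `S` is sparse, then `S` belongs to the system `Gen Z m`. -/
theorem Pool.Agent.Results.MP_2a05c8_ag.FermatQR.result
    (Z : Prop) (m : ℕ) [NeZero m] (hm : 12 ∣ m) (S : Multiset (ZMod m)) (h0 : (0 : ZMod m) ∉ S)
    (hc : Even S.card) (hsp : Sparse Z (core S)) (hS : Hodge S) : Gen Z m S := by
  refine gen_of (Pool.Agent.FQ.mainR Z (PZ Z) m (even_iff_two_dvd.2 (dvd_trans (by norm_num) hm))
    S h0 hc ?_ hS)
  have hcore : Pool.Agent.FQ.coreQ S = core S := rfl
  rw [hcore]
  intro T hT hAl
  have hall : ¬ Allowed Z m T := fun h => hAl (allowed_of hm hT h)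
  have hcn := cnt_eq (core S) T
  rcases hsp T hT hall with h | ⟨h1, h2⟩
  · right
    intro p hp q hq hpq
    rw [hcn, half_eq (hT p hp), half_eq (hT q hq)]
    exact Or.inl (h p hp q hq hpq)
  · left
    refine ⟨fun l hl => allowed_of hm (fun x hx => hT x (Finset.mem_of_mem_erase hx)) (h1 l hl), ?_⟩
    rw [hcn, Finset.prod_congr rfl fun l hl => half_eq (hT l hl)]
    exact h2
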