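import Mathlib
import Pool.Agent.MUG.Cov
import Pool.Agent.MUG.Reg
import Pool.Agent.MUH.Main

/-!
# The Tate conjecture for all powers of coverings of general curves, of Mumford fourfolds, of abelian
# tenfolds with endomorphism ring `ℤ`, and for varieties of `Kum^n`-type

The theorem of this file is the algebraic part of a proof of the following statement; this comment
contains the geometric part.

THEOREM. Let `k` be a finitely generated field of characteristic `0`, `ℓ` a prime number. Let `A` be
an abelian variety over `k` which over the algebraic closure of `k` is isogenous to one of:
(S) a power of a product of Jacobians of abelian coverings of `P^1` as in Theorem S (Section 8): the branch points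
    are general, the groups killed by `m`, and the Hodge conjecture holds for all products of Fermat varieties of
    degree `m` (for example `m ≤ 20`; for more `m` see (8.0)). For example of the curves `y^m = x^a (x - 1)^b (x -
    s)^c` and `y^m = x^d - x - s` over `ℚ(s)`, or of the curve `y^m = x^5 - x - 1` over `ℚ`, `m` any power of a
    prime. ANY `m ≥ 2` is allowed for coverings whose local monodromies are `g_1, g_1^(-1), …, g_k, g_k^(-1)` (for
    example `y^m = f(x)/g(x)`, `deg f = deg g`), and for superelliptic curves `y^m = f_j(x)` as in Theorem S if the
    `f_j` have the same degree `d`, odd and prime to `m` (`d ≥ 7`; for `d = 3, 5` see (8.0)), or if all `deg f_j`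
    are even and divisible by `m`. In characteristic `p` see (8.6);
(S') a power of a product of Jacobians of coverings of general curves `X` of genus `g ≥ 1` as in Theorem S' (8.8),
for example: abelian étale coverings; étale coverings with any finite group `H`, `g` large with respect to `H`;
ramified coverings of these two kinds whose local monodromies are `g_1, g_1^(±1), …, g_k, g_k^(±1)`, or have orders
whose least common multiple is `m` as in (S), for example `m ≤ 20`; the same for general plane curves `X`;
(0) a product of Mumford fourfolds: Mumford-Tate group `𝔾_m · SL_1(B)`, `B` a quaternion algebra over a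
    totally real cubic field `F`, ramified at two infinite places, with split corestriction to `ℚ`, such
    that `F(√-3)` splits `B` (for example `B` unramified at all finite places); or an abelian
    variety whose motive is in `⟨h(Y × E)⟩`, `E: y^2 = x^3 + 1`, `Y` any abelian variety with an action of `ℚ(√-3)`
    of signature `(1, b)`, `b ≤ 8` (or of `ℚ(√-1)`, `b ≤ 4`, `E: y^2 = x^3 + x`):
    for example a power of `Y × E`, or of an abelian tenfold with endomorphism ring
    `ℤ` and Mumford-Tate group `𝔾_m · SU(V)` acting by `Λ^3`, `V` a hermitian space over `ℚ(√-3)` of
    signature `(1, 5)` and discriminant `-1`;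
(1) an abelian variety of dimension at most `5`, or a power of it, whose simple factors of dimension `4` with
    endomorphism ring `ℤ` and `ℓ`-adic group of type `SL_2^3`, if there are any, are Mumford fourfolds as in (0);
(2) a product of abelian fourfolds of Weil type with discriminant `1`, for any imaginary quadratic
    fields, among which those of the CM class (2.5) are isogenous to each other.
Let `U` be a smooth `k`-variety such that, after a finite extension of `k`, there is a smooth
projective variety `Y` whose homological motive belongs to the thick tensor category `⟨h(A)⟩` and a
proper, surjective and generically finite morphism `U' → U`, `U'` open in `Y`. Then `T^i(U)` holds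
for all `i`, and every Hodge class in `H^(2i)(U, ℚ)(i)` is algebraic. This applies to all open
subvarieties `U` of all products `X_1 × ⋯ × X_r`, if the product of the corresponding abelian varieties
is as in (S), (S'), (0), (1) or (2), of

* coverings of curves as in (S), (S'), and varieties dominated by their powers and products, for example the moduli
  spaces of stable bundles on them (coprime rank and degree), complete intersections of two general diagonal
  hypersurfaces of degree `m` (`∑ x_i^m = ∑ s_i x_i^m = 0`, any dimension), and hypersurfaces `F_1(x_0, x_1) +
  F_2(x_2, x_3) + ⋯ = 0`, `F_i` general binary forms of degree `m` (8.7);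
* projective varieties of `Kum^n`-type, for all `n ≥ 2`, in particular to all powers of each of them;
* K3 surfaces, varieties of `K3^[n]`-type and resolutions of singular `OG6` varieties whose
  transcendental lattice embeds over `ℚ` into `U^3 + ⟨-a⟩`;
* K3 surfaces and varieties of `K3^[n]`-type with `√-3` in `End T(X)`, rank of `T(X)` at most `18`: their motives
  are in `⟨h(Y × E)⟩`, `Y` of signature `(1, b)`, `b ≤ 8`, see the file
  `Results/MP_54b9c8_ag/EisensteinGaussK3.lean`;
* abelian varieties as in (S), (S'), (0), (1), (2);

and to the smooth parts of the quotients of such products by finite groups, for example the smooth parts of the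
hypersurfaces `w^m = f(t_1) ⋯ f(t_n)`, `y^m = f(x)` as in (S).

Known before: `Kum^n` for `n = 2` (Floccari and Varesco) and `n = 3` (Floccari); for every `n` the classes in the
subalgebra generated by `H^2(X)` (Floccari and Varesco); all powers of one Weil fourfold of discriminant `1`
(Floccari and Fu 2025); all powers of one K3 surface with complex multiplication (Zarhin, Buskin); an abelian
variety of dimension at most `5` itself, not its powers (Moonen and Zarhin, Markman 2025). For a Mumford fourfold
`A` (Mumford 1969) there are exotic Hodge classes on `A × A` (Moonen and Zarhin, Galluzzi); to our knowledge their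
algebraicity was known for no such fourfold. Abelian varieties with endomorphism ring `ℤ` whose Mumford-Tate group
is not the full symplectic group exist only if the dimension is exceptional (Serre, Pink): `4` (Mumford), `10`
(`SL_6` acting by `Λ^3`), `16`, `32`, … We know no earlier result for the dimension `10`. For coverings of the line
monodromy and Hodge groups were studied by Deligne and Mostow, Rohde (2009), Moonen and Oort (2013), Venkataramana
(2014), Mohajer and Zuo, and, for `y^m = f(x)`, `m` a power of a prime and `f` with large Galois group, by Xue and
Zarhin (2009, 2010): for one such curve and prime `m` all Hodge classes on the powers are generated by divisors.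
Schoen (1988, 1998) proved that the determinants for étale cyclic coverings are algebraic, and uses them for cyclic
coverings of the line. The monodromy of étale abelian coverings of general curves was determined by Looijenga (1997)
for `g ≥ 3`, and for all groups and large `g` by Landesman, Litt and Sawin (2024); for the powers of general Prym
varieties of double coverings see Biswas and Paranjape (2002). So, for one étale abelian covering of a very general
curve and `g ≥ 3`, the Hodge conjecture for the powers follows from the works of Schoen and Looijenga (it may also
be contained in work of Arapura on Jacobians of étale coverings), and only the other cases are claimed as new. That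
the determinants are algebraic for étale coverings with arbitrary finite groups ((8.8)(ii), by Brauer's theorem) is
new as far as we know. Terasoma studied the Hodge classes of complete intersections of diagonal hypersurfaces (1988)
and the Hodge and Tate classes of hypergeometric sheaves (1997), with Fermat motives; this may contain the case of
one curve branched over four points. In general there are exotic classes (8.0); we know no earlier result on all
powers for these.

In Lean there are the following steps. (i) `TwistType` (Section 9): an object `B` is generated by objects `V_1, …,
V_l` and by a class `R` of semisimple objects, closed under tensor products and duals, whose Galois invariants are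
algebraic (in short: with (T)); the determinants of the `V_i` belong, by algebraic cycles, to `R`; the group `N` of
the elements of the Galois group which act trivially on `R` is infinite on each `V_i`, and its Zariski closure is
normalised by a set `T` of tuples of matrices, for example monodromy matrices, which contains sufficiently many
transvections and homologies (pseudoreflections up to scalars), preserves no symplectic form up to scalars (if the
rank is not two) and separates the `V_i`. From this Lean proves, by elementary arguments, that `N` is Zariski dense
in `SL(V_1) × ⋯ × SL(V_l)` (big monodromy), and that all tensor words in `B` and its dual are semisimple and satisfy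
(T). (For `l = 0` this says that (T) is known for the words in `B`, as in the Sections 2, 3.) (ii) Section 4: the
passage from the tensor words in `B` to all motives generated by `B` and by varieties of `Kum^n`-type, and to all
smooth varieties dominated by them. Not in Lean: the Sections 1, 2, 3, 5, 7, 8, (9.1) to (9.3), and the theorems
quoted there.

Conventions. All motives are homological motives with rational coefficients (in Section 9: with coefficients in
`F`), `B = h(A)` (in Section 9 also other `B`), `⟨B⟩` is the smallest full subcategory which contains `B` and is
closed under direct sums, tensor products, duals and direct summands. `G` is the Galois group of `k`.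

## 1. What is used

(1.1) `h(X)` is in `⟨h(J^3(X))⟩` for every projective `X` of `Kum^n`-type over the complex numbers:
this is the theorem whose algebraic part is `Pool.Agent.KMN.thick_of_kummer` and whose geometric part
is in the comment of the file `Results/MP_54b9c8_ag/KummerType.lean`; see there for the meaning of
the fields of `KummerMotive` and for the references (Markman, O'Grady, Voisin, Nieper-Wisskirchen,
Lehn, Sorger, Haiman, Bridgeland, King, Reid, Krug, Mukai, Beckmann, Verbitsky). `J^3(X)` is an
abelian fourfold of Weil type with discriminant `1` (O'Grady 2021, Markman 2023).

(1.2) Descent. The finitely many correspondences which show that `h(X)` is in `⟨h(A)⟩`, and `A`, live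
over a finitely generated extension of an algebraic closure `K` of `k`; spread `A` out over a
`K`-variety and specialise: the cohomology classes do not change, so `h(X)` is in `⟨h(A)⟩` over `K`,
for some abelian fourfold `A` of Weil type with discriminant `1` over `K`, and so over a finite
extension of `k`. If `k'` is a finite extension of `k` and `T^i` holds for `U` over `k'`, it holds
for `U` over `k` (average over the conjugates).

(1.3) The Weil classes are algebraic on every abelian fourfold of Weil type with discriminant `1` (Markman, JEMS
2023), and on all abelian fourfolds of Weil type and all abelian sixfolds of Weil type with discriminant `-1`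
(Markman, arXiv 2502.03415), for all imaginary quadratic fields. Hodge classes of degree two are algebraic
(Lefschetz). Homological and numerical equivalence coincide on abelian varieties in characteristic `0` (Lieberman),
so `⟨B⟩` is semisimple (Jannsen): every morphism `f` has a `g` with `f g f = f`. (This is used in (1.1); in the
theorem of this file it is a consequence of (T) and semisimplicity for the tensor words.)

(1.4) The Mumford-Tate conjecture holds for abelian varieties of dimension at most three (Serre,
Ribet, Chi), for simple ones of dimension five (Ribet, Tankeev) and of dimension four with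
endomorphism ring not `ℤ` (Moonen and Zarhin 1995), for Weil fourfolds of discriminant `1` also by
André 1996 (`H^2` of hyper-Kähler varieties), and for products of varieties for which it holds
(Commelin 2019). If a simple fourfold has endomorphism ring `ℤ`, then its `ℓ`-adic group is minuscule and
symplectic of rank eight, so it is `GSp_8` or of type `SL_2^3` (Mumford's type, see Section 7); in the first case
the Mumford-Tate group is `GSp_8` too. `H^1(A, ℚ_ℓ)` is semisimple (Faltings), hence all its tensor powers are.

(1.5) Irreducible Hodge structures of K3 type (Zarhin): `E = End(T)` is totally real and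
`dim_E T ≥ 3`, the Hodge group is `SO_E(T)`, or `E` is a CM field and the Hodge group is `U_E(T)`.

## 2. The Hodge conjecture for all powers of `A`

(2.1) Let `A` be an abelian fourfold of Weil type with discriminant `1` (special ones included), `K`
the imaginary quadratic field, `W = H^1(A, ℚ)`, a hermitian `K`-space of dimension `4`, signature
`(2, 2)` and discriminant `1`, `S = SU(W)`. Over the complex numbers `S = SL_4` and
`H^1(A) = U + U*`. Let `V` be the rational quadratic space of rank `6` with `V ⊗ K = Λ^2_K W`;
`S → SO(V)` has the kernel `±1`; `V(1)` is a Hodge structure of type `(1, 4, 1)`. Let `M ⊆ S` be the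
Hodge group of `A`; it contains `-1`.

(a) Every `S`-invariant tensor of `H^1(A)` is algebraic: by the first fundamental theorem for `SL_4`
these are generated by the contractions of `U` with `U*`, which are Hodge classes of degree two, and
the determinants of `U` and `U*`, the Weil classes (as tensors: the component of type `(1, 1, 1, 1)`
of the pull back of the Weil classes under the sum `A^4 → A`).

(b) As `-1` is in `M`, only even tensors matter. `-1` acts trivially on `H^1(A) ⊗ H^1(A)`, so this
is a representation of `SO(V)` and a direct summand of a sum of tensor powers of `V`, by `S`-maps,
which are algebraic by (a). So it suffices that the `M`-invariant tensors of `V` are algebraic.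
`V = T + N`, where `N` consists of divisor classes and `T` is the transcendental part, irreducible
of K3 type or zero. So it suffices to consider invariant tensors of `T` under the Hodge group of `T`.

(c) `E = ℚ`: invariants of `SO(T)`: generated by the quadratic form (algebraic by (a)) and a
generator of the top exterior power of `T`; contract the top exterior power of `V` (algebraic by
(a)) with the top exterior power of `N`.

(d) `E` real quadratic. Then `T = V`, `dim_E T = 3`; over the complex numbers `M` is the image of
`SL_2 × SL_2` and `U = S_1 ⊗ S_2 = U*`, `H^1(A) = U ⊗ ℂ^2`, `End(A) ⊗ ℂ` is the algebra of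
endomorphisms of `ℂ^2`, and `M` acts through `SO(U)`. The invariants of `SO_4` are generated by the
form (so we get Hodge classes of degree two) and the determinant `δ` of `U`. The Weil classes are
`δ ⊗ e_1^4` and `δ ⊗ e_2^4`; the action of `End(A)` on the four factors of `A^4` gives all
`δ ⊗ x`, `x` in `(ℂ^2)^(⊗ 4)`.

(e) `E` a CM field: the invariants of `U_E(T)` are generated by `E`, that is by the Hodge classes in
`T ⊗ T`. Over the complex numbers `T` is the sum of the `T_τ`, `τ : E → ℂ`, and `V = Λ^2 U`. Each
`T_τ` is a sum of products of isotypic components of `U` for `M`, whose projectors are in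
`End(A) ⊗ ℂ`: rank `6`, `E` quadratic: `U = χ + P`, `T = χ P + Λ^2 P`; rank `4`, `E` quadratic:
`U = χ + χ^(-1) + P`, `dim P = 2`, `T = χ P + χ^(-1) P`; rank `2`: `A` is isogenous to a power of an
elliptic curve; rank `4`, `[E : ℚ] = 4`: the weights of `U` are `±(t_1 + t_2)/2`, `±(t_1 - t_2)/2`,
those of `T` are `± t_1`, `± t_2`; rank `6`, `[E : ℚ] = 6`: the weights of `U` are
`(± t_1 ± t_2 ± t_3)/2` with an even number of minus signs, and `t_1` is the sum of two of them in
only one way. QED

(2.2) Simple `X` of dimension at most five, not of Mumford's type (see Section 7 for this type). Hodge algebras: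
`sl_2`, `u(1)`;
`sp_4`, `Res sl_2`, `sl_1(B)`, tori; `sp_6`, `Res sl_2`, `u(2,1)`, tori; `sp_10`, `Res sl_2`,
`u(p,q)`, `p + q = 5`, tori: all powers generated by divisors. Dimension four: `sp_8`, `Res sp_4`,
`Res sl_2`, type II: `sp_4`, `Res sl_2`; type III: `SO_4` as in (d); type IV: `u(3,1)`; `su(2,2)`;
`E` quartic with `u_E((2,0),(1,1))`; `E` octic: a torus of rank four, or of rank three, and then the
only relation of the weights `±l_1, …, ±l_4` is `l_1 + ⋯ + l_4 = 0`, and the stabiliser of
`{l_1, …, l_4}` defines an imaginary quadratic subfield, the only one, for which this is the Weil
relation. By the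
first fundamental theorem, in each case all invariants on all powers are generated by classes of
degree two and Weil classes (and their images under `End(X)` acting factor by factor).

(2.3) Products of dimension at most five. Semisimple parts can be identified only if they are forms
of `sl_2` or `sp_4` acting by the standard representation, which gives classes of degree two. The
central characters have only the relations given by elliptic curves `E_K` and factors `X` with `K` in
`End(X)`: `det W = (p - q) χ_K`, `W` the `K`-eigenspace of `H^1(X)` and `(p, q)` the signature:
dimension `3`, `(2, 1)`: the Weil class of the fourfold `X × E_K`; dimension `4`, `(3, 1)`: the Weil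
class of the sixfold `X × E_K^2`; the hermitian form of `E_K^2` is an arbitrary positive definite
one, so the discriminant can be made `-1`. Two different quartic CM surfaces are independent: the
types of a `D_4` field and its reflex field give independent vectors. (The same proof allows any
number of further elliptic curves and of surfaces and threefolds without complex multiplication.)

(2.4) Products as in (2). The Lie algebras of the Hodge groups of the `A_j`, by the transcendental
part `T_j` of `V_j`: rank `6`, `E = ℚ`: `sl_4`; rank `5`: `sp_4`; rank `4`: `sl_1(B') + sl_1(B'')` or
`Res_F sl_1(B)` with `B` split at both places, `U = (2,1) + (1,2)`; rank `3`: `sl_1(B)`, `U = 2 + 2`;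
`E` real quadratic: `Res_E sl_1(B)`, `B` split at one place, `U = 2 ⊗ 2`; `E` imaginary quadratic:
`U = χ + P`, `det P = χ^(-1)`, or `U = χ + χ^(-1) + 2`, or `2 χ + 2 χ^(-1)`. An identification of
simple factors (Goursat) of the types `sl_4`, `sp_4`, mixed `Res sl_1(B)` gives an isogeny
`A_i ~ A_j`; of the types with `U ∋ 2` it gives isomorphic constituents; of the type `sl_3` it gives
`P_i = P_j ψ` with `3 ψ = χ_j - χ_i`: if `χ_i = χ_j` an isogeny, and if `χ_i = -χ_j` the Hodge weight
of `ψ` would be `±1/3`, impossible. The characters `χ_K` for different `K` are independent. The
invariants are generated by contractions, determinants (Weil classes of the `A_j`), pairs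
`χ χ^(-1)`, `det P χ` (Weil class of `A_j`) and `det P_c det P_c'^*`, the contraction of two of these
with `χ χ^(-1)`. QED

(2.5) CM class: `dim_E T = 1`, and `E` is quartic and not biquadratic, or sextic. With one isogeny
class `A_0` of this kind the relations of characters are those of `A_0` and `l_0 = ± χ_K`. (For
several classes: if `L'` is the reflex field of a non Galois quartic CM field there are CM surfaces
with `T(S_1) = H^1(S_3) ⊗ H^1(S_4)` over `L'`, and three conjugate `T` for a sextic field `K F`, `F`
cubic and not Galois, satisfy a relation: Weil classes for fields of degree four and six.)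

## 3. The Tate conjecture for all powers of `A`

By (1.4) the classes in `H^(2i)(A^r)(i)` invariant under an open subgroup of `G` are the linear combinations of
Hodge classes, and `T^i(A^r)` holds for all `i` and `r`, over every finitely generated field. (For one Weil fourfold
of discriminant `1`: `V(1)` is, up to classes of divisors, `H^2(X)(1)` of a variety of `Kum^2`-type. `MT(A)` is
connected and maps with finite kernel to `Hg(V) × 𝔾_m`; `G_ℓ(A)^0` is contained in `MT(A)` (Deligne, Borovoi,
Piatetski-Shapiro), maps onto `Hg(V)` (André) and contains the homotheties (Bogomolov), so it is `MT(A)`.) In Lean: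
`TwistType` with `l = 0`, see (9.3). (`B^∨` is a twist of `B`, so the tensor words in `B` and its duals are the
twists of the `h(A^r)`. Coefficients may be extended from `ℚ_ℓ` to its algebraic closure `F`; `KummerMotive` needs
the roots of unity of order `N`.)

## 4. From `A` to all smooth `U` (this is the Lean part)

`C` is the category of homological motives over `k`, `H` the `ℓ`-adic realisation. Every object of
`⟨B⟩` is a direct summand of a sum of tensor words. `T` and semisimplicity pass to sums and direct
summands. So `T` holds for all objects of `⟨B⟩`, to which `h(X)` belongs by (1.1).

Second part: `U' → U` proper, surjective and generically finite of degree `deg` over `k'`, `U'` open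
in a smooth projective `Y_0`, `Y = h(Y_0)(i)`. `H^(2i)(U')(i)` has weights `≥ 0`, and its part of
weight `0` is the image of `H^(2i)(Y_0)(i)`, so the invariants of `G` are in this image (Deligne;
Jannsen, Mixed motives and algebraic K-theory, section 7). By semisimplicity they are images of
invariants, that is of algebraic classes. `up` is the pull back, `down` the push-forward, followed by
the trace to `k`, and `down (up v) = deg v` on the Tate classes over `k`.

The same theorem, with the Mumford-Tate group for `G`, gives the Hodge conjecture for `U`.

## 5. Complement: finite fields

Let `X_0` be a smooth projective variety over a finite field of characteristic `p ≠ ℓ` which is a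
reduction of a variety of `Kum^n`-type in characteristic `0`. `A = J^3` has potentially good
reduction `A_0` (the kernel of `S → SO(V)` is finite and `V` is unramified), and by specialisation
`h(X_0)` is in `⟨h(A_0)⟩` and the `S`-invariant tensors are algebraic. `T` holds for `H^1 ⊗ H^1`
(Tate) and Frobenius `φ` is semisimple (Weil). So, after a finite extension, `V(1) = T + N`, `N` the
invariants of `φ`, divisor classes, and `φ` has no eigenvalue on `T` which is a root of unity. The
slopes of `φ` on `V(1)` are `-1/h`, `0`, `1/h` (`h` times `±1/h`), or `T = 0` and all is clear. The
slope `-1/h` part is a simple isocrystal, so the characteristic polynomial of `φ` on `T` is `P^e`,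
`P` irreducible, `E = ℚ[t]/P` is a CM field of degree `2 s`, `e s ≤ 3`, and there is one place `v`
with `v(α) < 0`, of degree `h/e`. Let `Γ` be the Galois group of the closure of `E`, `I` the set of
the `2 s` embeddings, `D` the set of those which give `v` for a fixed place of the closure. If
`∏ α_i^(n_i) = 1`, `n` odd under complex conjugation, then the sum of the `n_i` over each `g D` is
`0`; and the sets `g D` separate the elements of `I` (`α^m` generates `E` for all `m > 0`). If
`s = 1` or `|D| = 1`: `n = 0`. `s = 2`, `|D| = 2`: `{1, 2}` and `{1, -2}` occur, `n = 0`. `s = 3`:
the solutions form a `Γ`-stable space `L`. `dim L = 2`: then all `g D` are `± D`, impossible.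
`dim L = 1`: all `|n_i|` are equal, so `|D| = 2` and, up to the names, `α_1 α_2 α_3 = 1`. Then the
eigenvalues of `φ` on `U` are (up to `√q`) `1, α_1, α_2, α_3` (or the inverses), and the invariant
tensor `e_1 ∧ e_2 ∧ e_3` of `Λ^3 V` is the square of the first eigenvector, a Tate class in
`H^1 ⊗ H^1`, so algebraic; the projectors to the eigenspaces (polynomials in `φ`) give all
`e_i ⊗ e_j ⊗ e_k`. If `e = 1`, the contractions are components of the form of `V`. `e = 2`: then
`s = 1`, `U = χ + χ^(-1) + 2·1`, `T = χ (2·1) + χ^(-1) (2·1)`, and the tensors in
`T_χ ⊗ T_(χ^(-1))` are products of invariants of degree two. So `T` holds for all words (and then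
numerical and `ℓ`-adic homological equivalence coincide on `⟨B⟩`), except perhaps if `h = e = 3`;
this case is contained in section 6 of the comment of the file `AbelianProducts.lean` in this folder.
So `T^i(U)` holds for all smooth `U` dominated by open subvarieties of powers of `X_0`.

## 6. Other examples (constructor `spanned` of `Gen`)

`B = h^2(X)`, `X` of `K3^[n]`-type with `End(T(X))` a CM field: `T` and the Hodge conjecture for all
words in `B` follow from Markman (rational isometries are algebraic), Zarhin and André, and
`H^*(X)` is spanned by images of words in `B` (Markman, Charles and Markman). This is routine.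

## 7. Mumford fourfolds, tenfolds, and abelian varieties with `ℚ(√-3)`-signature `(1, b)`

Notation: `K = ℚ(√-3)`, `E` the elliptic curve `y^2 = x^3 + 1`, `χ` its `K`-eigenspace of type `(1, 0)`, `χ'`
the other one, `χ ⊗ χ' = K(-1)`. For an abelian variety `Y` with `K`-action, `U = H^1(Y)_K` is the `K`-Hodge
structure of the type `(1, 0)^a + (0, 1)^b` given by one embedding of `K`: signature `(a, b)`; `r = a + b = dim
Y`. All isomorphisms in (7.2), (7.3) are algebraic: isomorphisms of homological motives over `ℂ` with
coefficients in `K`. By Riemann every polarisable `K`-Hodge structure of type `(0, 1)^n` with its conjugate is a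
power of `E`.

(7.1) THEOREM. (a) Let `Y` be any abelian variety with an action of `K` of signature `(1, b)`, `b ≤ 8`. All
Hodge classes on all powers of `Y × E` are algebraic, and `T^i` holds for them over every finitely generated
field of definition. (b) Let `F` be a totally real cubic field, `B` a quaternion algebra over `F`, ramified at
exactly two infinite places, with split corestriction `Cor_{F/ℚ} B`, and let `A` be one of Mumford's abelian
fourfolds of `B` (Mumford-Tate group `𝔾_m · SL_1(B)`, `H^1(A, ℂ) = V_1 ⊗ V_2 ⊗ V_3`). If `F(√-3)` splits `B`,
all Hodge classes on all powers of `A` are algebraic, and `T^i(A^r)` holds for all `i`, `r` over every finitely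
generated field of definition.
(c) Let `V` be a hermitian space over `K` of dimension `6`, signature `(1, 5)`, discriminant `-1` modulo norms.
Then `Λ^3_K V = V_ℚ ⊗ K` with a symplectic space `V_ℚ` of dimension `20` over `ℚ`, on which `SU(V)` acts. Let
`A` be an abelian tenfold with `H^1(A, ℚ) = V_ℚ` and Mumford-Tate group in `𝔾_m · SU(V)`, belonging to a point
of the ball of dimension `5`, and `Y` the abelian sixfold of signature `(1, 5)` for the same point, `H^1(Y, ℚ) =
V`. All Hodge classes on all powers of `A × Y × E` are algebraic, and `T^i` holds for them over every finitely
generated field of definition.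
(d) The same for all powers of `Y × E × Z_1 × Z_2 × ⋯`, `Y` and the `Z_k` as in (7.2), and of all factors of
these. If `End_K(Y) = L` is of degree `m` over `K` and `H^1(Y)_K = V_1 + ⋯ + V_m` over `L`, there are, besides
(b), for example the abelian varieties of dimension `9` with `V_1 ⊗ V_2`, `dim V_i = 3`, `m = 2`.
The fourfolds in (b) form whole Shimura curves. The condition holds if `B` is unramified at all finite places,
for every `F`. There is a two dimensional space of exotic Hodge classes in `H^4(A × A, ℚ)(2)` (the projectors to
the three summands `Sym^2 V_i` of `Sym^2 H^1(A)`), and a further exotic class, Cayley's hyperdeterminant, on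
`A^4`.
In (c), `End(A) = ℤ` if and only if `End_K(Y) = O_K` up to isogeny, as for the general point; then `𝔾_m · SU(V)`
is the Mumford-Tate group, and the quartic invariant of `SL_6` on `Λ^3` is an exotic Hodge class in `H^4(A^4,
ℚ)(2)`; it gives the projector of `Sym^2 H^1(A)` to its summand `su(V)`.

(7.2) THEOREM C. Let `Y` have the signature `(1, b)`, `b ≤ 4`, or `b = 5` and let the discriminant of the
hermitian form of some polarisation of `Y` be `-1` modulo norms from `K`. Then for all `k ≥ 1` there is an
abelian variety `Z_k` with `Λ^k_K U ⊗ χ^(k-1) = H^1(Z_k)_K (-(k-1))`. Moreover `det U ⊗ χ^(b-1) = K(-b)` for all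
`b ≤ 8`.
Proof. (a) Families. `C: w^6 = (t - a)^5 (t - b) f_6(t)`, eight points of `P^1` with the exponents `5/6, 1/6,
(1/6)^6`, sum `2`: `U_C = H^1(C)_(ζ^-1)` has the type `(1, 0) + (0, 1)^5`. The period map of this five
dimensional family is étale (Deligne and Mostow), so up to isogeny (`U(V_C)(ℚ)` is dense in `U(V_C)(ℝ)`) it
dominates the moduli space of the abelian sixfolds of signature `(1, 5)` with hermitian space `V_C`. If `a` and
`b` come together the vanishing cycle is isotropic, and its orthogonal modulo itself is the space of `w^6 =
f_6`, a form of the lattice `E_8` over `ℤ[ω]` (Mordell-Weil lattice of `y^2 = x^3 + f_6(t)`), with discriminant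
`1` modulo norms. So `disc V_C = -1`. By Landherr `Y × E^(5-b)`, `E` with the conjugate action, has this
hermitian space for `b ≤ 4` and a suitable polarisation. A class which is algebraic for the general member of a
family of Hodge classes is algebraic for all members. So for the first assertion let `U = U_C`; if it holds for
`Y × E^(5-b)` it holds for `Y`, as `Λ^k` of a summand is a summand.
(b) `P^3 = Sym^3 P^1`, `H_i` = the divisors containing the `i`-th point (eight planes in general position), `L`
the rank one sheaf on the complement: `Λ^3 U = H^3(P^3 - ∪ H_i, L)`, and the extensions `j_!`, `Rj_*` of `L` are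
equal. Let `l = H_a ∩ H_b`, `Π_λ` the planes through `l`, `X'` the complement of the strict transforms of the
eight planes in the blowing up of `l`: `λ: X' → 𝔾_m`. Along the exceptional divisor the exponents add up to `1`,
so `L` extends; the divisor in `X'` is `(l - 6 points) × 𝔾_m`, with nontrivial exponents `5/6`, `1/6` on `𝔾_m`,
so it has no cohomology with values in `L`: `Λ^3 U = H^3(X', L)`. Let `R = H^2(Π_λ - 6 lines, L)`, rank `6`.
There are `20` special `λ`, where three of the six lines meet; there the local monodromy is a reflection of
order two (`3/6`), and at `0`, `∞` it is the scalar `exp(2πi/6)` or its inverse. By the decomposition theorem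
and purity `Λ^3 U`, of rank `20`, is `H^1(P^1, j_* R)`, of rank `20·6 - 20·5 = 20`. The six exponents have the
sum `1`, so `R` is of type `(0, 2)`, its hermitian form over `ℤ[ω]` is definite and its monodromy is finite.
(c) The generic member of `R` is algebraic: `V_λ: y^2 = x^3 + λ l_1 ⋯ l_6(s)`, of degree `6` in `P(1,1,1,2,3)`,
`l_i` linear in `s` in `P^2`, has isolated compound Du Val singularities `y^2 = x^3 + uv` over the `15` nodes
and `-K = O(2)`: a Fano threefold with terminal singularities (a degenerate del Pezzo threefold of degree `1`),
so it is rationally connected, and (Bloch and Srinivas) `H^3` of a resolution is `H^1(J)(-1)`, `J` a factor of a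
Jacobian. It is dominated by `D × E`, `D: w^6 = λ l_1 ⋯ l_6`, and `R ⊗ χ`, of type `(1, 2)`, is a direct
summand. So `R ⊗ χ = χ'(-1)^6` and `R ⊗ χ^2 = K(-2)^6`.
(d) Let `C' → P^1` be a covering which kills the monodromy of `R`; spread these six classes out over `C'`. Cup
product with them, followed by the trace, is an algebraic map `H^1(C') ⊗ K(-2)^6 → H^1(P^1, j_*(R ⊗ χ^2))`,
onto. So `Λ^3 U ⊗ χ^2` is a quotient, and as homological motives of abelian type are semisimple, a direct
summand of `H^1(C')_K^6 (-2)`. (`w^6 = ∏ H_i` over `P^3` is dominated by `C^3`.) This is the assertion for `k =
3`. `k = 2`: the same with `P^2 = Sym^2 P^1`, the lines through the point `H_a ∩ H_b`, `y^2 = x^3 + λ l_1 ⋯ l_6`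
on a line, a rational elliptic surface.
(e) `det U_C = H^n` of the complement of `n + 2` hyperplanes in general position in `P^n`, `n = 6`, or for the
family `w^6 = f_12`, signature `(1, 9)`, `n = 10`: a motive of rank one cut out of a Fermat variety of degree `6`,
of the type `(1, n - 1)`, as is `χ'^(n-2) (-1)`. All Hodge classes on products of Fermat varieties of degree `6` are
algebraic (Shioda, Katsura), so `det U_C = χ'^(n-2) (-1)`. For `b ≤ 8` by Landherr `Y × E^(9-b)` is in the closure
of the second family, so `det U ⊗ χ'^(9-b) = χ'^8 (-1)`, and `det U = χ'^(b-1) (-1)`. (For `ℚ(√-1)`, `E: y^2 = x^3 +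
x`, `b ≤ 4`: the same with `w^4 = f_8`, eight exponents `1/4`, signature `(1, 5)`, `n = 6`. So (7.1)(a) holds in
this case too.) `k = 4, 5, 6`, `r = 6`: `Λ^k U = det U ⊗ (Λ^(6-k) U)^*`, and `U^*` is the complex conjugate of `U`,
twisted by `1`. QED

(7.3) Proof of (7.1), Hodge classes. (a) We may assume that the `K`-Hodge structure `U` is irreducible (the
other summands are equal to `χ'`). Its endomorphisms (those of `Y` which commute with `K`) act faithfully on the
line `U^(1,0)`, so they form a field `L = F_1 K`, `F_1` totally real of degree `m`, and `H^1(Y)` is a hermitian
space of rank `s` over `L`, `ms = r = b + 1`, of signature `(1, s-1)` at one place and `(0, s)` at the others: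
`U = V_1 + ⋯ + V_m`. The Hodge group `M` of `Y × E` is generated by the conjugates of the cocharacter `-1/2` on
all `V_i` except `1/2` on one line of `V_1`, and `1/2` on `χ`. So `M` contains all `SL(V_i)` (differences of
conjugates under `M`), and for its centre: if `c_i` is the character `det V_i`, the relations `∑ n_i c_i + x χ =
0` are the multiples of `n_i = 1`, `x = b - 1`. By the first fundamental theorem for `SL_s` the invariants in
the tensor words of `V_i`, `V_i^*`, `χ` are generated by contractions of `V_i` with `V_i^*`, `χ` with `χ^*`
(Hodge classes of degree two, algebraic by Lefschetz) and `det V_1 ⊗ ⋯ ⊗ det V_m ⊗ χ^(b-1)`, that is `det U ⊗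
χ^(b-1)`, algebraic by (7.2), and its dual.
(b) `B = (-d, -3)`, `d` in `F^*`, is the algebra of the special unitary group of the hermitian form `⟨1, d⟩`
over `F(√-3)`. Let `Y_0` be the abelian sixfold with `H^1 = F(√-3)^2`, the Hodge structure given by the point of
`A` on the Shimura curve of `SL_1(B)`, twisted by the centre, so that the signatures at the three places of `F`
are `(1, 1)`, `(0, 2)`, `(0, 2)` (form `c ⟨1, d⟩` with suitable `c` in `F^*`). Over `K` the signature is `(1,
5)`, `U = V_1 + V_2 + V_3`, the discriminant is `N_{F/ℚ}(d)` modulo norms, and `Cor_{F/ℚ} (-d, -3) = (-N(d),
-3)` is split exactly if it is `-1`. So Theorem C applies: `Λ^3 U ⊗ χ^2 = H^1(Z_3)_K (-2)`. The summand `V_1 ⊗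
V_2 ⊗ V_3` of `Λ^3 U`, cut out by endomorphisms of `Y_0`, has the type `(1, 2)^4 + (0, 3)^4`, and the centre of
the Hodge group acts on it by `χ^(-2)`, `c_1 + c_2 + c_3 + 4 χ = 0`. So `V_1 ⊗ V_2 ⊗ V_3 ⊗ χ^2` is, as a Hodge
structure, `H^1(A)_K (-2)`, and as it is `H^1` of an abelian variety by algebraic correspondences, the
isomorphism is algebraic. So `h^1(A)` is a direct summand of `h^1(Y_0)^(⊗ 3) ⊗ h^1(E)^(⊗ 2) (2)`, it is in
`⟨h(Y_0 × E)⟩`, and the assertion follows from (a).
Products of such fourfolds `A_i`, pairwise not isogenous: `SL_1(B_i)` is simple over `ℚ`. An isomorphism of the
adjoint groups of `SL_1(B_i)`, `SL_1(B_j)` over `ℚ` is given by one of the pairs `(F_i, B_i)`, `(F_j, B_j)`; if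
it respects the Hodge structures, then `A_i ~ A_j`, as `V_1 ⊗ V_2 ⊗ V_3` is symmetric. So (Goursat) the Hodge
group of the product is the product of the groups `SL_1(B_i)` and its invariants are spanned by products of
invariants of the factors.
(c) Let `h` be the hermitian form of `V`, `δ` a generator of `Λ^6_K V`, and `*` the semilinear endomorphism of
`Λ^3_K V` with `y ∧ x = h(y, * x) δ`. With an orthogonal basis `v_i`, `h(v_i, v_i) = a_i`, one finds `* v_456 =
v_123 / (a_1 a_2 a_3)` and `* v_123 = - v_456 / (a_4 a_5 a_6)`, so `*^2 = -1/(a_1 ⋯ a_6)`, which is `1` modulo
norms; multiply `*` by an element of `K^*` to get `J` with `J^2 = 1`. `V_ℚ` is the fixed space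
(if `J = λ *`, then `x ∧ y` is in `λ √-3 ℚ δ` for `x`, `y` in `V_ℚ`: this is the symplectic form). `* g x =
det(g)^(-1) g * x` for `g` in `U(V)`. The Hodge group of `Y × E` consists of pairs `(g, t)` with `det(g) t^4 =
1`, by (7.2), so `J` commutes with its action on `W = Λ^3_K V ⊗ χ^2 (2)` (`J` conjugates `t^2` to `t^(-2)`): it
is an endomorphism of the Hodge structure `W = H^1(Z_3)`, of `Z_3` by Riemann, and `W` is the sum of two copies
of the fixed space of `J`, which is `H^1(A, ℚ)`: `Z_3 ~ A^2`. So `h^1(A)` is a direct summand of `h^1(Y)^(⊗ 3) ⊗
h^1(E)^(⊗ 2) (2)`, `h(A)` is in `⟨h(Y × E)⟩`, and (a) for `b = 5` applies. If `End_K(Y) = O_K` up to isogeny,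
then by (a) the Hodge group of `Y × E` contains `SU(V)`, `Λ^3` is absolutely irreducible and `End(A) = ℤ`;
otherwise (`V = V_1 + ⋯ + V_m` with `m > 1`, or `V` reducible) `Λ^3_K V` is reducible.
(d) `h(Z_k)` is in `⟨h(Y × E)⟩`. QED

(7.4) The Mumford-Tate conjecture. (b) `G_ℓ(A)^0` is contained in `MT(A)` (Deligne, Borovoi, Piatetski-Shapiro),
contains the homotheties (Bogomolov) and acts irreducibly on `V_1 ⊗ V_2 ⊗ V_3` (Faltings), and by Goursat no
smaller connected group does. (a) `G_ℓ(Y)^0` acts irreducibly and inequivalently on the `V_i` (Faltings); by
Hodge-Tate theory for every `i` there is a cocharacter which has only one line of another weight on `V_i` and is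
scalar on the other `V_j`; so `G_ℓ` contains all `SL(V_i)`; for the centre see Vasiu 2008. Products of the
fourfolds in (b): Commelin 2019.
(c), (d): all these varieties belong to `⟨h(Y × E)⟩`.
In the theorem (1) Mumford factors as in (b) are allowed: for products `A × E_1` of dimension five, `SL_1(B)` is
simple over `ℚ` of dimension nine, no identification with a group of `E_1` is possible, the invariants are
products (over `ℚ_ℓ` by Commelin 2019, or by the Hodge-Tate weights for all embeddings of `k`).

## 8. Abelian coverings of the line, and coverings of general curves

(8.0) THEOREM S. (a) Let `m ≥ 2` be such that (*) the Hodge conjecture holds for all products of Fermat varieties of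
degree `m`. Let `C_1, …, C_t` be abelian coverings of `P^1` with groups killed by `m`, branched only over points of
`{s_1, …, s_n}`. If `(s_1, …, s_n)` is very general over `ℂ`, all Hodge classes on all powers of `C_1 × ⋯ × C_t` are
algebraic. If the `s_i` are independent variables over a finitely generated field of characteristic `0`, or if they
belong to a number field and `(s_1, …, s_n)` is outside of a thin set, the same is true and `T^i` holds for these
powers and all `i`. Examples: `y^m = f(x)` for the generic polynomials `f`, and `y^m = x^a (x - 1)^b (x - s)^c` over
`ℚ(s)` (up to three of the `s_i` may be replaced by `∞, 0, 1`).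
(b) The same is true under (*) for the smooth projective curves `C_j : y^m = f_j(x)`, `f_j = g_j(x) - s_j` over
`k(s_1, …, s_t)`, `g_j` a Morse polynomial (different critical values, simple critical points) of degree `d_j ≥ 3`
over a finitely generated field `k` of characteristic `0`. Example: `y^m = x^d - x - s` over `ℚ(s)`.
(c) The same is true for `C_j : y^m = f_j(x)`, if `m` is a power of a prime, `d_j = deg f_j ≥ 5` (`≥ 4` if `m` is
odd), the `f_j` have coefficients in a number field `k`, primitive Galois groups over `k`, and there are places
`v_j` of `k`, prime to `2m`, at which all `f_i` are integral with leading coefficients units, with `v_j(disc f_j) =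
1` and `v_j(disc f_i) = 0` for all `i ≠ j`. Example: `y^m = x^5 - x - 1` over `ℚ`, `m` any power of a prime (the
polynomial is irreducible modulo `5`, its discriminant is `19 · 151`).
(d) For the curves in (b), and for `C_j : y^m = f_j(x)` as in (a), `deg f_j = d_j ≥ 3`, with independent `f_j`, (*)
can be replaced by: (**) all `d_j` are equal to one odd number `d` prime to `m`, `6 ∤ m` if `d = 5`, and `4 ∤ m`,
`10 ∤ m` if `d = 3`; or by: (***) all `d_j` are even and divisible by `m`. For coverings in (a) it can be replaced
by: (****) the local monodromies of each covering `C_j → P^1` are, up to the order, `g_1, g_1^(e_1), …, g_k,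
g_k^(e_k)`, where all `e_i` are `-1` (for example `y^m = f(x)/g(x)`, `deg f = deg g`), or `e_i = ±1` and `m` is odd
(for example `y^m = f(x) g(x)^a`, `deg f`, `deg g` even, `deg f + a deg g` divisible by `m`). In these cases `m` is
arbitrary.

The condition (*) is known for `m ≤ 20` and for primes (Shioda 1979), and for `l^a`, `2 l^a`, `l` prime (Aoki 1987);
with the cycles in the comment of the file `FermatQR.lean` of this folder it holds for all `m < 87` and for all `m`
without odd prime factors congruent to `1` modulo `4`. If all `C_j` are curves `y^m = f_j(x)`, `d_j ≥ 5`, with
independent `f_j`, and if `t = 1` and `m` is prime or `m = 4`, all Hodge classes in Theorem S are generated by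
divisors. In all other such cases with `m > 2` there are exotic ones: by (8.2) the `det V_a` for all `C_j` and all
`a` with `2 a ≠ 0`, up to `a ↦ -a`, span, modulo Tate twists, a group of characters of the Mumford-Tate group of
rank `φ(m)/2` (for an odd primitive character `ψ` of conductor `c ∣ m` the sum of the `ψ(u) ⌈d u/c⌉`, `0 < u < c`,
is `(d - ψ(d)^*) B_(1,ψ)`, not zero), and this is less than their number. Examples: (`t = 2`, `d_1 = d_2`) `Λ^r
V_a(C_1) ⊗ Λ^r V_(-a)(C_2)` in `H^(2r)(C_1^r × C_2^r)`, already for `m = 3`; (`y^9 = x^5 - x - 1`) the determinant
of `V_2 + V_3 + V_5 + V_8` in `H^16(J(C))(8)`, because of the distribution relation `[1/3] = [1/9] + [4/9] + [7/9]`: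
these are Weil classes for an action of `ℚ(√-3)` of signature `(8, 8)` on `J(C)`, of dimension `16`; (`m = 6`, `d =
7`) `Λ^6 V_1 ⊗ Λ^6 V_(-2) ⊗ Λ^6 V_(-2)`.

(8.1) Monodromy. For `μ ≠ 0` in `((1/m)ℤ/ℤ)^n` with sum zero let `L_μ` be the sheaf of rank one on the line with the
exponents `μ_i` at `s_i`, ramified at the `s_i` with `μ_i ≠ 0`; let `n(μ)` be the number of these, and `V_μ =
H^1(P^1 - {ramified points}, L_μ)`, of rank `r = n(μ) - 2`. `h^1` of a covering as in (a) is the sum of the `V_μ`,
`μ = (χ(g_1), …, χ(g_n))`, for the characters `χ` of the group, `g_i` the local generators. `V_(-μ) = V_μ^∨(-1)`.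
Let `S(μ)` be the sum of the representatives of the `μ_i` in `[0, 1)`; `V_μ` has the type `(1, 0)^(S(μ)-1) + (0,
1)^(n(μ)-1-S(μ))`. Let `π` be the fundamental group of the space of the `(s_1, …, s_n)` and `Γ_μ` the Zariski
closure of its image in `GL(V_μ)`. The identity component of the closure on all `V_μ` together, hence `Γ_μ°`, is
semisimple (Deligne). Let `r ≥ 2`. The full twist `A_ij` of `s_i` and `s_j` along an arc acts trivially on `V_μ` if
one of them is not ramified, and otherwise by `x ↦ x + c (x, v) v`, `c ≠ 0`, `v` the vector of the arc: a
pseudoreflection with the eigenvalue `exp(2πi(μ_i + μ_j))`, or a transvection if this is `1`. The vectors of the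
arcs between successive ramified points span `V_μ`, and those of neighbouring arcs are not orthogonal for the
nondegenerate form: `V_μ` is irreducible. The full twist of three ramified points has the trace `2 exp(2πi(μ_i + μ_j
+ μ_k)) + r - 2`; it is a scalar if `r = 2`.
(i) Let `V_μ`, `V_μ'` be isomorphic projectively, as representations of `π`. They have the same ramified points,
since `A_ij` is not a scalar exactly for pairs of these. Let `r ≥ 3`. Then the scalars are `1` for the `A_ij`, where
the eigenvalue `1` has the multiplicity `r - 1 ≥ 2`; these generate `π`, so the traces of the full twists of two and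
of three points are equal, and `μ = μ'`. Let `r = 2`. Then `μ'_i + μ'_j = ±(μ_i + μ_j)`, and all combinations of
signs for the three pairs are realised by `± K`, `K` the Klein group of permutations of the four ramified points. So
after a change of `μ'` modulo `± K` all signs are `+`, and `μ' = μ` or `μ' = μ + (1/2, 1/2, 1/2, 1/2)`. In the
second case some `μ_i + μ_j` is `1/2`, so `μ'` is in `-K μ`; for otherwise the scalars are `1` for the `A_ij` again,
but the full twist of three points is `exp(2πi(μ_1 + μ_2 + μ_3))` on `V_μ` and the negative of this on `V_μ'`. So in
all cases `μ' = μ` or `r = 2`, `μ' ∈ ± K μ`. But elements of `K` are induced by automorphisms of `P^1`, so `V_(σμ) =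
V_μ`, over a finite extension of the ground field, for `σ` in `K`.
(ii) Let `r ≥ 2`, `Γ_μ` infinite. If `2 μ = 0`, `Γ_μ° = Sp(V_μ)` (A'Campo 1979). If `2 μ ≠ 0`, `Γ_μ° = SL(V_μ)`.
This is clear for `r = 2`. Let `r ≥ 3`. `Γ_μ` is primitive: a pseudoreflection or transvection does not permute
blocks of dimension greater than one, and if all blocks are lines, `Γ_μ°` is a torus, hence trivial. By Clifford
`Γ_μ°` is irreducible (a tensor product contains no pseudoreflections and transvections), and normalised by them; so
it is `SL`, `SO` or `Sp` (Katz, Exponential sums and differential equations, 1.5). In the last two cases `V_μ` would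
be projectively isomorphic to `V_(-μ)`, which contradicts (i).
(iii) Let `r ≥ 2`, `Γ_μ` finite (`Γ_μ` is finite if and only if `S(uμ)` is `1` or `n(μ) - 1` for all units `u`:
theorem of the fixed part and irreducibility; definite hermitian lattices). There are no transvections, so `μ_1 +
μ_2 ≠ 0` if these are ramified. The factor of the Jacobian given by the `V_uμ` is isotrivial, so it is, over a
finite extension of the ground field, isogenous to its good reduction for `s_1 → s_2`, a factor of the Jacobian of a
stable curve with two components. So it has the direct factor `χ = V_(μ_1, μ_2, -μ_1-μ_2)` (three points, a factor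
of `h^1` of the Fermat curve of degree `m`), and `V_μ = χ^r`, as all `V_uμ` have only one Hodge type.
(iv) So (Goursat, Kolchin, Ribet) the identity component of the closure of the image of `π` on the sum of the `V_μ`
is `Σ := ∏ Sp(V_μ) × ∏ SL(V_μ)`: the first product over the `μ` with `2 μ = 0`, `r ≥ 2`, the second over the classes
of the other `μ` with `r ≥ 2` and infinite `Γ_μ`, modulo `μ ~ -μ` and, if `r = 2`, modulo `K`.
(v) For the curves `C_j : y^m = f_j(x)` the points are the zeros of the `f_j` and `∞`, and `μ = (a, …, a, -d_j
a)/m`; let `V_a = V_a(C_j)` be `V_μ`. They are different in the sense of (iv), except for `a ↦ -a`. For a Morse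
polynomial `g` of degree `d` the fundamental group of the line of the `g - s` in the space of the monic polynomials
without multiple zeros maps onto the braid group (Zariski, van Kampen), which contains the pure braid group of the
zeros. So `Σ` is the same for the curves in (b). Half twists of neighbouring zeros act on `V_a` by pseudoreflections
with the eigenvalue `-exp(2πi a/m)` (transvections if `2 a = 0`), all conjugate to each other. `V_a` has only one
type if and only if `a/m ≤ 1/d` or `a/m ≥ 1 - 1/d`, `0 < a < m`. There are multiples `ua/m` in the interval `(1/d, 1
- 1/d)`: one near to `1/2` if the order of `a` is `5` or at least `7` (not `10` if `d = 3`), and `1/m'` if the order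
is `m' < d`. So, if `d` is odd and prime to `m`, `Γ_a` is finite only for `d = 5` and the order `6`, and for `d = 3`
and the orders `4`, `10`.

(8.2) Determinants. `Sym^r P^1 = P^r`, the divisors which contain one of the `n = r + 2` ramified points are
hyperplanes `ℓ_i = 0` in general position, and `det V_μ = Λ^r H^1(P^1 - n points, L_μ) = H^r(P^r - n hyperplanes,
L)`, since only `H^1` is not zero. All such arrangements are projectively equivalent to the one over which the
Fermat variety `X_m^r` is a covering of `P^r` with the group `μ_m^(r+1)`. Let `μ_i = a_i/m'` with the least `m'`,
`s_n = ∞` (without restriction), `C` the curve `y^(m') = ∏ (x - s_i)^(a_i)`, `i < n`, and `D` the normalisation of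
`P^r` in the cyclic covering `w^(m') = ∏_k ∏_i (x_k - s_i)^(a_i)` (`x_1 + ⋯ + x_r` in `Sym^r`), the right side being
`∏_i ℓ_i^(a_i)` up to a constant and a power of `ℓ_n`. `D` is a quotient of `C^r`, `w = ∏ y_k`, and, over a finite
extension of the ground field, of `X_m^r`, by finite groups. So `det V_μ` is, as a motive with coefficients in
`ℚ(ζ_m)` over a finite extension, the line `V(μ_1, …, μ_n)` (with the `μ_i ≠ 0`) in the cohomology of `X_m^r`, for
all different `s_1, …, s_n`; `det V_a = V(a, …, a, -da)` (without `-da` if it is `0`).

(8.3) Proof for Hodge classes. The Mumford-Tate group contains `Σ` as a normal subgroup (André 1992), so it acts on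
the `V_μ` in `Σ` by `SL(V_μ)` and scalars (`Sp(V_μ)` if `2 μ = 0`). Under (*) let `R` be the tensor category
generated by the `V_μ` with `2 μ = 0` (`h^1` of hyperelliptic curves), by the Fermat varieties of degree `m` and
`ℚ(1)`, with coefficients in `ℚ(ζ_m)`; by (8.2), (8.1)(iii) it contains the `det V_μ`, the `V_μ` of rank one and
those with finite `Γ_μ`. Under (**) and (***) we may suppose `m > 20`, no `Γ_a` is finite by (v), and we take only
the `det V_a` instead of the Fermat varieties. Under (****) we take the `det V_μ` instead of the Fermat varieties:
`n(μ)` is even, so there are no `V_μ` of rank one; and no `Γ_μ` is finite, because there is a transvection, or `μ =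
(a_1, a_1, …)` up to the order, `m` is odd, and `S(μ)` is even, so it is not `1` or `n(μ) - 1`. (Coverings with all
`e_i = -1` may be added in all cases: their determinants `V(a_1, -a_1, …)` are Tate twists.) The Hodge classes in
`R` are generated by the symplectic forms and by Hodge classes on products of Fermat varieties of degree `m`,
algebraic by hypothesis, in the other cases by products of Tate twists and of the `det V_a^(⊗ c_a)`, algebraic by
the following lemma. By the first fundamental theorem for `SL` those in words in the `V_μ`, `V_μ^*` and objects of
`R` are obtained from contractions of `V_μ` and `V_μ^* = V_(-μ)(1)` (Hodge classes of degree two on `C × C`), from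
the inclusions of `det V_μ` in `V_μ^(⊗ r)` and from Hodge classes in `R`.
LEMMA. In the cases (**), (***), (****) every Hodge class in a twisted product of powers of the `det V_μ` is
algebraic. Proof. In the group `U` of `FermatQR.lean`, section 1, at the level `m` (generators `[z]`, `z` in
`(1/m)ℤ/ℤ`; relations `[1/2]`, `[z] + [-z]` and the distribution relations), `det V_μ` has the class `∑ [μ_i]`, by
(8.2). Let `y` be the class of the product. It is a Hodge class if and only if `y` is a torsion element, and
algebraic if `y = 0`, by the cycles of Shioda, Katsura and Aoki. The torsion of `U` is killed by `2`, and the units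
of `ℤ/m` act trivially on it (Yamamoto 1975, Kubert 1979). (**) `y = (d - T_d) x`, `x` the sum of the `[a/m]` for
the factors `det V_a(C_j)`, `T_d [z] = [d z]`. `T_d` has finite order, so `d - T_d` is injective modulo torsion, `x`
is a torsion element, and `y = (d - 1) x = 0`, as `d` is odd. (***), (****) `∑ [μ_i]` is the sum of terms `2 [z]`
and `[z] + [-z] = 0`, so `y = 2 x'`, `x'` is a torsion element, and `y = 0`.

(8.4) Proof for Tate classes in (a), (b), (c). Let `G_ℓ` be the `ℓ`-adic group of the `C_j` together with the Fermat
curve of degree `m`. In all cases it contains `Σ`, acting trivially on the Fermat curve, for some `ℓ`: for variables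
`s_i`, `s_j` because it contains the geometric monodromy group; over number fields in (a) because outside of a thin
set the image of the Galois group is the one for the variables (Hilbert; Serre, Terasoma); for (c) see (8.5). `G_ℓ°`
is contained in the Mumford-Tate group (Deligne 1982), so this is generated by `Σ` and its centre, and the statement
for Hodge classes holds; `G_ℓ°` is the Mumford-Tate group, since the centre is given by the determinants, motives
with complex multiplication; so the Mumford-Tate conjecture holds for this `ℓ`, and then for all (Larsen and Pink
1995). (T) holds in `R`: the invariants of the groups `Sp(V_μ)`, which act trivially on the Fermat motives, are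
generated by the symplectic forms, and on the Fermat motives the Galois group acts through an abelian group after a
finite extension, and Tate classes are combinations of Hodge classes (Pohlmann), algebraic by (*) or the lemma. For
the density see (9.2).

(8.5) The group `G_ℓ` in the case (c), `m` a power of the prime `p`, `ℓ = p`. Let `t = 1` first and replace `k` by
`k(ζ_m)`, unramified at `v = v_1`. Let `τ` generate the tame inertia at a place over `v`. Modulo `v` there is
exactly one double zero. So `τ` interchanges two zeros; the Galois group of `f`, primitive, is the symmetric group,
and this is so over `k(ζ_m)`, as the quadratic subfield of the splitting field is ramified at `v`. `τ` acts on `V_a`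
like a half twist: near the double zero `L_a` is the Kummer sheaf of `(x^2 - π)^(a/m)`, and `x = √π z` shows that
`τ` acts by `-exp(± 2πi a/m)` on the vanishing cycle (the same sign for all `a`). Let `N` be the closed normal
subgroup generated by `τ`. Let `T` be the lattice `H_1(A^1 - {zeros}, L_a)` over `ℤ_p[ζ_m]`. As `L_a` is trivial
modulo the prime ideal, `T` modulo this is the module of the vectors with sum zero in `𝔽_p^d`, with the permutation
action of the symmetric group, onto which `N` maps. It is generated by the vectors of the transpositions, so
(Nakayama) `T` is generated by the vectors of the conjugates of `τ`, and so is its quotient `V_a`. By Faltings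
`V_a`, with coefficients in an algebraic closure, is a semisimple representation of the normal subgroup `N`; so it
is a direct sum of irreducible subspaces `U_j`, on exactly one of which each conjugate of `τ` acts nontrivially;
they are pairwise not isomorphic and permuted transitively by the Galois group. They have the same dimension, but
modulo `p` there is an absolutely irreducible constituent of dimension at least `d - 2 > (d - 1)/2`: `V_a` is
irreducible for `N`. If `2 a = 0`, the closure of `N` is generated by transvections and equal to `Sp(V_a)`. If `2 a
≠ 0`, the argument of (ii) applies to it (its identity component is semisimple, as `det τ` has finite order, and `τ`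
has an eigenvalue other than `1`, `-1`: so it is `SL(V_a)`), unless it is finite; then `G_p°` acts by scalars, also
on the `V_ua`, conjugate to `V_a` over `ℚ_p`, and by Hodge-Tate theory all `V_ua` have only one type, which
contradicts (v): there are `ua/m` in `(1/d, 1 - 1/d)`, namely `1/3`, `1/4` (`d ≥ 5`), `2/5` for the orders `3`, `4`,
`5`, and one near to `1/2` for the prime powers `≥ 7`. `V_a` and `V_b` are projectively isomorphic, or dual, only if
`b = a`, or `-a`, by the eigenvalue of `τ`, as the rank is at least `3`. For `t > 1` the inertia at `v_j` acts
trivially on the `V_a` of the other curves, so these are not projectively isomorphic to those of `C_j`, and `G_p`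
contains `Σ`, the product over all `j`.

(8.6) Characteristic `p`. Theorem S (a) and (b) hold for `T^i` over `𝔽_q(s_1, …)`: in (a) for `p` prime to `m` and
variables `s_i`, in (b) for `p` prime to `2 m` and to the `d_j` and Morse polynomials `g_j` over `𝔽_q`, under the
condition (*) that `T^i` holds for all products of Fermat varieties of degree `m` over finite fields of
characteristic `p`, or, for curves `y^m = f_j(x)`, if (**) every `d_j` is odd and prime to `m`, or even and
divisible by `m`, or under (****). (The condition (*) is known if `-1` is a power of `p` modulo `m`, Shioda and
Katsura 1979; by the file `FermatAllChar.lean` of this folder it holds for all `p` for example for `m < 52`, `m ≠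
35, 44, 51`.) For example for `y^m = x^d - x - s` over `𝔽_q(s)`, for all odd `d ≥ 3`, `m` prime to `d`, `p` prime to
`2 m d (d - 1)`. If `-1` is a power of `p` modulo `m`, all products of even weight of the `det V_a` give Tate
classes. Proof. Lift the situation to the Witt vectors. The `V_μ` are lisse on the space of the `(s_1, …, s_n)`, or
on the line outside of the critical values and infinity, which are étale over the Witt vectors, and tamely ramified
at the boundary; by the specialisation of the tame fundamental group the geometric monodromy group is the same as in
characteristic `0`. So it is Zariski dense, up to finite index, in `Σ`, its `ℓ`-adic closure is open in `Σ(ℚ_ℓ)`,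
and it acts trivially on the Fermat motives. (8.2) and (8.1)(iii) hold in characteristic `p` (the latter by
specialisation). The representations are semisimple (Zarhin). In the cases (**), (****) let `R` be as in (8.3), with
the `χ` of (8.1)(iii) if there are finite `Γ_a`: the orders of `a` are then `4`, `6`, `10`, and those of the
elements of the triples `χ` are `4, 4, 2` or `6, 6, 3` or `10, 10, 5`. A product of the `det V_a` (`V_(-a)` for the
inverse) and of `χ`, `χ^(-1)` is the line `V(S)`, where `S` consists of even numbers of elements of the same order
(`d_j + 1` or `d_j` for each factor) and of such triples, so the condition `Parity` is satisfied, and if `V(S)` is a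
Tate class it is algebraic by the theorem of `FermatAllChar.lean` (with `Z` false, so with published cycles). So
Section 9 applies.

(8.7) Other varieties. Let `C` be the maximal abelian covering of `P^1` killed by `m` and branched over `s_1, …,
s_n`, with functions `y_i`, `y_i^m = (x - s_i)/(x - s_n)`. Let `X` be the intersection of `∑ x_i^m = 0` and `∑ s_i
x_i^m = 0` in `P^(n-1)`. The solutions of `∑ z_i = ∑ s_i z_i = 0` are `z_i = D(s_i)/∏_(j ≠ i) (s_i - s_j)`, `D` of
degree at most `e = n - 3` (interpolation). For `D = ∏ (x - t_k)` this gives `x_i^m/x_n^m = c_i ∏_k y_i(t_k)^m` with
constants `c_i`, so `X` is dominated by `C^e`. The hypersurface `F_1(x_0, x_1) + ⋯ + F_r(x_(2r-2), x_(2r-1)) = 0`,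
`F_i` binary forms of degree `m`, is dominated by the product of the curves `y^m = F_i(x, 1)` and of powers of
Fermat curves of degree `m` (Shioda and Katsura: `F + G = 0` is dominated by the product of `F = z^m` and `G =
-w^m`).

(8.8) Coverings of curves of genus `g ≥ 1`. THEOREM S'. Let `X` be a general curve of genus `g ≥ 1` with `n ≥ 0`
general points `s_1, …, s_n` (very general over `ℂ`, or generic over a finitely generated field of characteristic
`0`, or suitable ones over number fields, by the theorems of Hilbert, Serre and Terasoma). Then all Hodge classes on
all powers of the following varieties are algebraic, and `T^i` holds for these powers and all `i`.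
(a) `C_1 × ⋯ × C_t`, where `C_j → X` are abelian coverings, unramified outside of the `s_i`, if (*) holds for the
least common multiple `m` of the orders of the local monodromies, or if the local monodromies of each `C_j → X` are,
up to the order, `g_1, g_1^(e_1), …, g_k, g_k^(e_k)` with `e_i = ±1`; for example if the coverings are étale.
(b) `C`, where `C → X` is a Galois covering with any finite group `H`, unramified outside of the `s_i`, if `g` is
large with respect to `H`, and if the local monodromies satisfy, up to conjugation, one of the conditions in (a);
for example if `C → X` is étale, or if the least common multiple of their orders is at most `20`.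
(c) Products of such varieties for independent `(X; s_1, …, s_n)`, and of curves as in (8.0)(a), if (*) holds for
one `m` for all ramified coverings, or the condition on the local monodromies (for curves as in (8.0)(a): (****))
for all of them.
(d) Coverings as in (a), (b), where `X` is only the general member of any family of curves whose monodromy group has
finite index in the mapping class group, with general points `s_i` on `X`; for example general plane curves of
degree at least `4`, and general curves in ample linear systems on toric surfaces, if they are not hyperelliptic and
`g ≥ 5` (Salter 2019; Calderon and Salter 2021).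
In characteristic `p` the same is true for `T^i` and generic `(X; s_1, …, s_n)` in (a), (b), (c), with (*) as in
(8.6), if `p` is prime to the orders of the groups.

Proof. (i) Determinants on an arbitrary curve `Y` of genus `g`. Let `y^d = f` be a cyclic covering of degree `d` of
`Y`, `V_χ` the part of its `h^1` for a faithful character `χ`, ramified exactly at `s_1, …, s_n`, with the exponents
`μ_i = a_i/d`, `S = ∑ s_i`, `div f = ∑ a_i s_i + d E`.
Let `n = 0`, `d > 1`. The covering `w^d = ∏ f(x_k)` of `Sym^r Y`, `r = 2g - 2`, is étale, and `det V_χ` is the
`χ`-part of its `H^r`. The canonical system `P^(g-1)` has `d` disjoint lifts to it, with the self-intersection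
number `c_(g-1)(Ω^1(1)) = (-1)^(g-1)`. So the combination of their classes with the coefficients `χ(a)^(-1)` is not
`0` and spans `det V_χ(g - 1)` (Schoen 1988): `det V_χ` is a Tate twist over a finite extension of the ground field.
(For `d = 1`: `det h^1(Y) = F(-g)`.)
Let `n ≥ 2`, `r = 2g - 2 + n`, `Y° = Y - S`. Then `det V_χ = H_c^r(Sym^r Y°, L)`, and `L` is the pull back of a
character sheaf under the map `α` from `Sym^r Y°` to the generalised Jacobian `Pic^r_S` with the modulus `S`. Let
`T` be the fibre of `Pic^r_S → Pic^r Y` over the class of `K(S)`, a torus of dimension `n - 1`. The fibres of `α`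
are affine spaces of dimension `g - 1` outside of `T`; over `T` they are affine spaces of dimension `g` over `T_0 =
{∑ t_i = 0}`, and empty otherwise: the points of `α^(-1)(T)` are the divisors of the sections `ω` of `K(S)` with
residues `t_i ≠ 0` at the `s_i`. As the character sheaf is not trivial on `T`, because of `μ_i ≠ 0`, it has no
cohomology on `Pic^r_S` and on `T`. So the restriction `H_c^r(Sym^r Y°, L) → H_c^r(α^(-1)(T), L) = H_c^(n-2)(T_0,
L)(-g)` is an isomorphism. By Weil reciprocity `∏ f(x_k)`, the product over the zeros of `ω`, is `∏ t_i^(a_i)` up to
a constant and `d`-th powers. So `L` has on `T_0`, a complement of `n` hyperplanes in general position in `P^(n-2)`,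
the exponents `μ_i`, and as in (8.2) `det V_χ = V(μ_1, …, μ_n)(-g)` by algebraic correspondences, over a finite
extension of the ground field.
(ii) Let a finite group `H` act on a curve `C`, let `V_σ = Hom_H(σ, h^1(C))` for representations `σ` of `H`. For `σ`
induced from a character `χ` of a subgroup `H'`, `V_σ` is the `χ`-part of `h^1(C/ker χ)`, as in (i) with `Y = C/H'`.
By Brauer's theorem for every `ρ` there are such `σ_i`, `τ_j` with `ρ + ∑ τ_j = ∑ σ_i`. So `V_ρ ⊕ ⨁ V_(τ_j) = ⨁
V_(σ_i)`, and since the top exterior power of a direct sum is the product of the top exterior powers, `det V_ρ` is a
product of a Tate twist and of motives `V(μ)` and `V(μ)^∨ = V(-μ)(i)`; the `μ` are given by the local monodromies of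
`C → C/H`. If this is étale, `det V_ρ` is a Tate twist, spanned by an algebraic class on a power of `C`.
(iii) Monodromy in (a). Let `M` kill the groups of the coverings, and let `π` be the group of the mapping classes of
`(X; s_1, …, s_n)` which fix their characters `χ : H_1(X - {s_i}) → (1/M)ℤ/ℤ`. The rank `r` of `V_χ` is `2g` for `χ
= 0`, otherwise `2g - 2 + n(χ)`, `n(χ) ≠ 1` the number of the ramified points; let `r > 0`, and `h` the
skew-hermitian form. For a simple closed curve `γ` the power `T_γ^M` of the Dehn twist is in `π`. If `χ(γ) = 0` it
acts on `V_χ` by `x ↦ x ± M h(x, v_γ) v_γ`, `v_γ` the class of a lift of `γ`. If `γ` is not separating, it acts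
trivially if `χ(γ) ≠ 0`, and if `χ(γ) = 0`, then `v_γ = 0` only if `n(χ) = 0` and `χ ≠ 0` is a multiple of `⟨·, γ⟩`.
The full twist along an arc `e` between two ramified points acts by `x ↦ x + c_e h(x, v_e) v_e`, where `c_e ≠ 0`
depends only on the exponents at the ends. Every class in `H_1(X - {s_i})` with primitive image in `H_1(X)` contains
a simple closed curve (move one over the points). For `χ = 0` the closure of the image of `π` is `Sp(V_0)`. Let `χ ≠
0` be of order `d`. The group `Sp(2g, ℤ)`, and moving the points around closed curves, give standard curves `a_i`,
`b_i` such that `t = χ(a_1)` has the order `d`, `χ` is `0` on the other ones, and the ramified points `s_1, …, s_n`,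
`n = n(χ)`, are on a circle parallel to `a_1`; let `e_1, …, e_n` be the successive arcs on it, `e_n` crosses `b_1`.
Since `χ(a_1) ≠ 0`, the `v_(e_i)` are a basis of the orthogonal complement of the span of the `v_(a_i)`, `v_(b_i)`,
`i ≥ 2`, a symplectic space of dimension `2g - 2`. Successive `e_i` are not orthogonal, the handles `2, …, g` are
connected by chain curves, and if `n ≥ 2`, `g ≥ 2`, an arc from `s_1` to `s_2` through the second handle has the
vector `v_(e_1) + c v_(a_2)`, `c ≠ 0`, and is not orthogonal to `b_2`, `e_2`. So `V_χ` is irreducible. There are
transvections (`T_(a_2)^M`; `T_(b_1)^M` for `g = 1`), so the identity component of the closure of `π` on `V_χ` is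
`SL(V_χ)` or `Sp(V_χ)`, as in (8.1)(ii); it is `Sp(V_χ)` if `2 χ = 0`.
(iv) Let `V_χ`, `V_χ'` be projectively isomorphic for `π`, or one of them to the dual of the other one. The
nonseparating `γ` for which `T_γ^M` acts nontrivially on `V_χ` generate the kernel of `χ`. So `χ` and `χ'` have the
same kernel, and `χ' = u χ`, `u` prime to the order `d` of `χ`. The numbers `φ(w) ψ(v)` for two twists `1 + v φ`, `1
+ w ψ` (unipotent, or with the eigenvalue `1` of multiplicity at least two) are the same for `V_χ` and `V_χ'`, in
the case of the dual up to the product of the determinants. If `n(χ) = 0`, let `w` be the connected sum of two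
parallel copies of `a_1`, with opposite orientations, along a path which crosses `a_2` once (so `w` is separating,
and `χ(w) = 0`). Then `|h(a_2, w)| = |1 - exp(2πi t)|`, `|h(a_2, b_2)| = 1`. If `n(χ) ≥ 2`, let `e` be an arc from
`s_1` to `s_2` which crosses `a_1` and `b_1` once, near to their common point, and `e'` its image under `T_(a_1)` or
the inverse which crosses `b_1` twice in the same direction. Then `|h(b_1, e')| = |1 + exp(2πi t)| |h(b_1, e)|`. For
`V_χ'` we have `u t` instead of `t`. In both cases `u = ±1`.
(v) Let `2 χ ≠ 0`, `r ≥ 3`, and suppose that the group in (iii) is `Sp(V_χ)`. It is not normalised by homologies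
with a ratio other than `1`. So all twists of arcs are transvections, and all numbers `h(v_1, v_2) h(v_2, v_3) ⋯
h(v_k, v_1)` for vectors of twists are real. Let `g ≥ 2`. Let `w`, `w'` be connected sums of `a_2` and `b_1` along
two paths which arrive from the two sides of `b_1` and together are parallel to `a_1`, and `y = e_n` (if `n(χ) = 0`,
so `g ≥ 3`: of `a_2` and `a_3` along two paths which differ by `a_1`, and `y = b_3`). Then `h(b_2, w) h(w, y) h(y,
w') h(w', b_2)` is the product of a real number other than `0` and of `exp(±2πi t)`. Let `g = 1`. All `μ_i` are
`1/2`, and `n(χ) ≥ 4`. Take for `w`, `w'` the connected sums of `b_1` and of the boundary of a neighbourhood of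
`e_1` along such paths, for `y` an arc from `s_n` to `s_3` which crosses `b_1` once and does not meet `e_1`, for `z`
the arc `e_2`. Then the same is true for `h(w, y) h(y, w') h(w', z) h(z, w)`. As `2 t ≠ 0`, both are contradictions.
So (Goursat, Kolchin, Ribet) the identity component of the closure of `π` is `Σ = ∏ Sp(V_χ) × ∏ SL(V_χ)`: the first
product over the `χ` with `2 χ = 0`, the second over the other ones modulo `χ ~ -χ`.
(vi) In (b) the identity component of the closure is `Σ = ∏ Sp(V_ρ) × ∏ SO(V_ρ) × ∏ SL(V_ρ)`: the first products
over the orthogonal and the symplectic `ρ`, the third over the other ones modulo duality (Landesman, Litt and Sawin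
2024, for large `g`). In (c) it is a product, and in (d) it is the same as in (a), (b): moving the points on `X`
gives all point pushing maps, so the monodromy group has finite index in the mapping class group of `(X; s_1, …,
s_n)`. Let `R` be generated by `F(1)`, the `V_χ` with `2 χ = 0`, the self-dual `V_ρ`, and, under (*), by the Fermat
motives of degree `m`, otherwise by the `det V_χ`, `det V_ρ`. The invariants of `SO(V_ρ)` are generated by the
quadratic form and a generator of `det V_ρ`. There are no `V_χ` of rank one and no finite groups. The exponents of
the characters in (ii) at the points over `s_i` depend only on the conjugacy class of the local monodromy and are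
replaced by their negatives for the inverse; so, by (i) and (ii), in the cases without (*) the classes of the `det
V_χ`, `det V_ρ` in `U` are combinations of elements `2 [z]`, and the proof of the lemma in (8.3) applies. Now (8.3),
(8.4) and Section 9 apply, and in characteristic `p`, since `M_(g,n)` and the stacks of admissible coverings of
degree prime to `p` are smooth over the Witt vectors with boundaries with normal crossings, (8.6).

## 9. The Lean part for the Sections 7 and 8: the structure `TwistType`

(9.1) `F` (in Lean) is the algebraic closure of `ℚ_ℓ`, `C` the `F`-linear category of homological motives over `k`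
with coefficients in `F`: `Hom(X, Y)` is the `F`-span of the classes of correspondences in `Hom(H(X), H(Y))`, so the
`ℓ`-adic realisation `H` is linear and faithful. Nothing about numerical equivalence is used. `tens`: `G` acts by
tensor automorphisms. The braiding is the usual commutativity constraint. `k` is replaced by a finite extension over
which all the correspondences are defined, such that the group `G_ℓ` of all objects which are used, taken together,
is connected.

(9.2) `V i`, `r i`, `b i`: motives cut out of `h^1` of abelian varieties by endomorphisms, their ranks and bases;
`braid`: `s = -1`. `R`: the tensor words in the objects of a list and their duals. `tate`: (T) for them, and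
semisimplicity (Faltings). `det`: `D` is the top exterior power of `V_i`, a direct summand of `V_i^(⊗ r_i)`, or an
object isomorphic to it; `dv` is its generator. `gen`: see the examples. `twists`: let `N` (in Lean: `Ker`) be the
group of the tuples of matrices by which the elements of `G` which act trivially on the objects of `R` act on the
`H(V_i)`. `T` is a set of tuples of invertible matrices which normalise the Zariski closure of `N`. No subspace of a
`V_i` is stable under those `s_i`, `s` in `T`, which are of the form `c (1 + E)`, `E` of rank one and of trace not
`-2`, that is, under the transvections and the homologies with a ratio `t ≠ -1` of the eigenvalues (`irr`). If `r_i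
≠ 2`, `T` does not preserve an alternating form other than `0` on `V_i` up to scalars (`alt`; this is true if one of
these `s_i` is a homology). For `i ≠ k` no isomorphism of the Lie algebras `sl(V_i)` and `sl(V_k)` commutes with the
conjugations by the `s` in `T` (`sep`); that is, as projective representations `V_k` is not isomorphic to `V_i` or
its dual. `N` is infinite on each `V_i` (`inf`).
In all examples `N` is Zariski dense in `∏ SL(V_i)`: `G_ℓ` contains this group, acting trivially on `R`, by (7.4),
(8.4); this subgroup is defined over `ℚ_ℓ` and the image of the Galois group is open in `G_ℓ(ℚ_ℓ)` (Bogomolov;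
Serre), so the intersection is open in the subgroup and Zariski dense. So `inf` is true (`r_i ≥ 2`), and one can
take for `T` the set of all tuples of invertible matrices. But in the following cases one can take for `T` the
monodromies themselves, which normalise `N` since the `V_i` and the objects of `R` are defined over the ground
field, and with this choice Lean replaces the theorems of Katz, of Kazhdan and Margulis, and of Goursat, Kolchin and
Ribet.
* (8.1), if `μ_i + μ_j` is not `1/2` for the `V_μ` in the list and ramified `s_i`, `s_j`: the full twists. `irr`,
  `alt`, `sep`: (8.1), (i) (`V_μ` is not projectively isomorphic to `V_(-μ)`, if `2 μ ≠ 0` and `r ≥ 3`).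
* `y^m = f_j(x)`: the half twists (in the case (c) the conjugates of the `τ` at the places `v_j`). For those of the
  zeros of `f_j`, `t` is `-exp(2πi a/m)` on `V_a(C_j)`, not `1`, `-1` because of `2 a ≠ 0 ≠ a`, and they are `1` on
  the other curves; so `sep` is true (only one of `a`, `-a` is in the list), and `irr` too (arcs between
  neighbouring zeros, (8.1)).
* Étale abelian coverings in (8.8)(a): the twists `T_γ^M` in (8.8)(iii). `irr`: (iii), `alt`: (v), `sep`: (iv).

`inf`: a subgroup of finite index of the geometric fundamental group acts trivially on the objects of `R`, except
for the `V_μ` with `2 μ = 0` (the `V_χ` with `2 χ = 0`), and infinitely on the `V_i` (on the second and the third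
list by (8.1)(v) and by transvections). So Lean can be applied first without these in `R`: the closure on `V_i` is
`SL(V_i)`. If the kernel on the `V_μ` with `2 μ = 0` were finite on `V_i`, `sl(V_i)` would be a quotient of a
product of symplectic Lie algebras, so `r_i = 2`, and `V_i` projectively isomorphic to a `V_μ` with `2 μ = 0`, which
contradicts (8.1)(i), (8.8)(iv). For `V_1` of signature `(1, b)` and `l = 1` one can take for `T` the conjugates of
the Hodge-Tate cocharacter (Sen), times scalars.

(9.3) Examples.

* Sections 2, 3, and products of Mumford fourfolds (end of (7.3)(b)): `l = 0`, `R` = the tensor words in `B` and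
  `1`.
* Section 8: the `V_i` are the `V_μ` of the classes in (8.1)(iv), for the curves `y^m = f_j(x)` the `V_a`; the list
  consists of the `V_μ` with `2 μ = 0`, of `F(1)`, and of the rank one motives of the Fermat varieties of degree
  `m`, in the cases (**), (***) only the `det V_a` (and `χ`, in characteristic `p`, (8.6)), in the case (****) none
  of these; `det`: (8.2). `h^1(C_j)` is a sum of `V_i`, of `V_i^∨ ⊗ F(-1)` and of objects of `R`; `B` is the motive
  of `C_1 × ⋯ × C_t`.
* (8.8): the `V_i` are the `V_χ` with `2 χ ≠ 0`, one of `V_χ`, `V_(-χ)`, in (b) the `V_ρ` with `ρ` not self-dual,
  one of `V_ρ`, `V_(ρ^*)`; `R`: (8.8)(vi); `det`: (8.8)(i), (ii).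
* (7.1)(a): the `V_i` of (7.3)(a); the list: `χ`, `F(1)`, the `det V_i`. The only relations between these characters
  are the multiples of one, which is algebraic by (7.2)(e). `B = h(Y × E)`; this contains (c), (d).
* A Mumford fourfold as in (7.1)(b): `l = 3`, `r_i = 2`, the `V_i` of `h^1(Y_0)`, the same list, `B = h^1(A)`, a
  direct summand of `V_1 ⊗ V_2 ⊗ V_3 ⊗ χ^2(2)`. A tenfold as in (7.1)(c): `V_1 = U`, `B = h^1(A)`, a direct summand
  of `U^(⊗ 3) ⊗ χ^2(2)`.
* General abelian fourfolds of Weil type and sixfolds with discriminant `-1` (Markman): `V_1` the `K`-eigenmotive of
  `h^1`, the list: `F(1)`.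
* In general (T) passes from `R` to everything that `R` and the `V_i` generate, for example to products with objects
  for which (T) is known, as long as the groups `SL(V_i)` are independent of these.

(9.4) Proof in Lean, from the density. Let `V_c = V_(c(1)) ⊗ ⋯ ⊗ V_(c(n))`, `L` in `R`, and `v` a Galois invariant
of `V_c ⊗ L`. By density it is invariant under `∏ SL(V_i)`, so `v = ∑ e_φ ⊗ y_φ`, where the `e_φ` are linearly
independent products of Levi-Civita tensors with permuted slots (first fundamental theorem). The Galois group acts
on all `e_φ` as on the generator `δ` of one product of the `D`, so `δ ⊗ y_φ` is an invariant in `R`, algebraic, and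
`v` is the sum of its images under `D → V_i^(⊗ r_i)` and permutations. `V_i^∨` is a direct summand of `V_i^(⊗ (r_i -
1)) ⊗ D^∨`, so every word in `B` and `B^∨` is a direct summand of a sum of objects `V_c ⊗ L`. The stable subspaces
of `V_c ⊗ L` have complements, as `∏ SL(V_i)` is reductive on `V_c` and `L` is semisimple. In Lean:
`MUW.weil_words`, `MUH.twist_words`.

(9.5) The density in Lean (`Pool.Agent.MUH.big`). Let `g` be the tangent space of the Zariski closure of `N` at `1`.
It is a Lie algebra of tuples of matrices of trace zero, stable under `N` and `T`, and `1 + a X` is in the closure
for `X` in `g` with `X^2 = 0` (left invariant derivations, exponential series).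
(1) Let a subspace `g'` of `g`, stable under brackets with itself and under `T`, be not zero on `V_i`. A minimal
`g'_i`-stable subspace would be moved by some `s` as in `irr`, unless it is `V_i`; then it would be a line, and its
weight space would be stable under all these `s`, as `t ≠ -1`, so `g'_i` would consist of scalars. So `V_i` is
irreducible under `g'_i`. (a) If there is an `s` in `T` with `s_i = c (1 + (t - 1) e)`, `e` a projection of rank
one, `t ≠ ±1`, the parts `e X (1 - e)` and `(1 - e) X e` of `X` in `g'_i` are in `g'_i` again, as `t`, `1/t` and `1`
are different. With `e = v φ`, the vectors `w` of `ker φ` with `w φ` in `g'_i` form together with `v` a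
`g'_i`-stable subspace, and in the same way for the `ψ` with `v ψ` in `g'_i`: so `g'_i = sl(V_i)`. (b) Otherwise let
`h` be the span of the nilpotent matrices of rank one which normalise `g'_i`. It is a Lie algebra, stable under `T`,
and contains the `s_i/c - 1` of the transvections in `irr`, so it is irreducible. With `v φ` and `w ψ` also `(w + a
φ(w) v)(ψ - a ψ(v) φ)` is in `h`; so there are `v φ`, `w ψ` in `h` with `φ(w) = ψ(v) = 1` (otherwise the span of the
`w` with `w ψ` in `h`, `ψ(v) ≠ 0`, would be stable, so `V_i`, and killed by `χ` for all `u χ` in `h` with `φ(u) ≠
0`). Let `V_0 = ker φ ∩ ker ψ`, and `L` the space of the pairs `(a, α)`, `a` in `V_0`, `α` in `V_0^*`, with `a φ + v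
α` in `h`. By irreducibility it maps onto `V_0`, and onto `V_0^*`. With `(a, α)` and `(b, β)` also `(2 α(b) a + α(a)
b, -2 β(a) α - α(a) β)` is in `L`. So, if an `(a, 0)` or `(0, α)`, not `0`, is in `L`, all are, and `h = sl(V_i)`;
then `g'_i = sl(V_i)` as in (a), with any `e`. Otherwise, if `V_0 ≠ 0`, `L` is the graph of a map `V_0 → V_0^*`,
`α(a) = 0` for all `(a, α)` in `L`, and `h` preserves the alternating form `f` on `V_i` with `x φ + v f(x)` in `h`,
`f(x)(w) = ψ(x)`, since `f(y)` is a multiple of `η` for all `y η` in `h`. This form is unique up to scalars, so `T`
preserves it up to scalars, and `r_i > 2`, which contradicts `alt`.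
(2) Let `J` be a set of factors, `i` and `k` two other ones, and let the elements of `g` which are zero on `J` be
not all zero on `V_i`. If all of them which are zero on `V_k` were zero on `V_i`, then also conversely, by (1) for
`V_k`, and `X_i ↦ X_k` would be an isomorphism of `sl(V_i)` and `sl(V_k)`, by (1), which contradicts `sep`. So by
induction the elements of `g` which are zero outside of `V_i` form `sl(V_i)`, if `g_i ≠ 0`, and the closure contains
the elementary matrices, hence `SL(V_i)`.
(3) An algebraic group with tangent space zero is finite (Nakayama). Apply this to the elements of the closure which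
are `1` on all `V_i` with `g_i ≠ 0`: by `inf` these are all `V_i`.
In Lean: `MUG.Tan`, `Exp`, `MUH.Irr`, `RankA`, …, `RankD`, `Full`, `Prod`, `MUG.FinA`, `FinB`, `MUH.Big`.
-/

namespace Pool.Agent.Results.MP_2a05c8_ag.MumfordPowers

open Pool.Agent.KMN Pool.Agent.KTT Pool.Agent.MUG Pool.Agent.MUH CategoryTheory MonoidalCategory
  Limits

universe v u w w'

theorem result (F : Type w) [Field F] [CharZero F] [IsAlgClosed F]
    (C : Type u) [Category.{v} C] [Preadditive C] [HasBinaryBiproducts C] [Linear F C]
    [MonoidalCategory C] [MonoidalPreadditive C] [RightRigidCategory C] [BraidedCategory C]
    (H : C ⥤ ModuleCat.{w} F) [H.Additive] [H.Linear F] [H.Monoidal] [H.Faithful]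
    (G : Type w') [Group G] (ρ : G →* Aut H) (B : C) (M : TwistType H ρ B)
    (Y : C) (hY : Gen H B Y) :
    (fixed H ρ Y ≤ alg H Y ∧ Semisimple H ρ Y) ∧
    -- smooth varieties `U`, `V = H^(2i)(U)(i)`, dominated by an open part `U'` of `Y`,
    -- `V' = H^(2i)(U')(i)`
    ∀ (V' : Type w) [AddCommGroup V'] [Module F V'] (act : G → V' → V')
      (res : H.obj Y →ₗ[F] V'), (∀ g v, res (((ρ g).hom.app Y).hom v) = act g (res v)) →
      (∀ v, (∀ g, act g v = v) → v ∈ LinearMap.range res) →
      ∀ (V : Type w) [AddCommGroup V] [Module F V] (tate cyc : Submodule F V)
        (up : V → V') (down : V' → V) (deg : F),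
        (∀ v ∈ tate, ∀ g, act g (up v) = up v) → (∀ v ∈ alg H Y, down (res v) ∈ cyc) →
        deg ≠ 0 → (∀ v ∈ tate, down (up v) = deg • v) → tate ≤ cyc := by
  have h := gen_of_words H ρ M.tens B (fun W hW => twist_words M hW) Y hY
  refine ⟨h, ?_⟩
  intro V' _ _ act res h1 h2 V _ _ tate cyc up down deg h3 h4 h5 h6
  exact covered H ρ Y h.1 h.2 V' act res h1 h2 V tate cyc up down deg h3 h4 h5 h6

end Pool.Agent.Results.MP_2a05c8_ag.MumfordPowers
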